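import Mathlib
import Pool.Agent.Lib.MP_8b8716_co_TRI.Tab

set_option autoImplicit false

/-!
# MP_8b8716_co, TRI 11: functions for the kernel computation
-/

namespace Pool.Agent.MP8b8716T

/-- all numbers below `n` -/
def allTo (n : ℕ) (f : ℕ → Bool) : Bool := Nat.rec true (fun k s => (f k).and s) n

/-- sum over the numbers below `n` -/
def sumN (n : ℕ) (f : ℕ → ℕ) : ℕ := Nat.rec 0 (fun k s => s + f k) n

/-- entry of a list -/
noncomputable def nth (l : List ℕ) : ℕ → ℕ :=
  List.rec (fun _ => 0) (fun a _ ih n => Nat.rec a (fun k _ => ih k) n) l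

/-- entry of a list of lists -/
noncomputable def nthL (l : List (List ℕ)) : ℕ → List ℕ :=
  List.rec (fun _ => []) (fun a _ ih n => Nat.rec a (fun k _ => ih k) n) l

/-- digits -/
def d8 (T i : ℕ) : ℕ := (T >>> (8 * i)) % 256
def d16 (T i : ℕ) : ℕ := (T >>> (16 * i)) % 65536
def d32 (T i : ℕ) : ℕ := (T >>> (32 * i)) % 4294967296
def d56 (T i : ℕ) : ℕ := (T >>> (56 * i)) % 72057594037927936
def d64 (T i : ℕ) : ℕ := (T >>> (64 * i)) % 18446744073709551616
def d256 (T i : ℕ) : ℕ := (T >>> (256 * i)) %
  0x10000000000000000000000000000000000000000000000000000000000000000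
def d448 (T i : ℕ) : ℕ := (T >>> (448 * i)) %
  0x10000000000000000000000000000000000000000000000000000000000000000000000000000000000000000000000000000000000000000

/-- evaluation of a number before it is used -/
def force (n : ℕ) (f : ℕ → Bool) : Bool := Nat.rec (f 0) (fun k _ => f (k + 1)) n

/-- Gram matrices: the table `y` (digit `J`) is `L L^T`, offsets `2^47` and `2^23` -/
noncomputable def ychk (l y : List ℕ) (J : ℕ) : Bool :=
  allTo 34 fun r => force (nth l r) fun R => force (nth y r) fun YR => force (d32 R 34) fun S =>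
    allTo 34 fun c => force (nth l c) fun C =>
      Nat.beq (d56 (d448 YR c) J + 8388608 * (S + d32 C 34))
        (sumN 34 (fun k => d32 R k * d32 C k) + 2533274790395904)

/-- Gram matrix of the third kernel -/
noncomputable def mchk : Bool :=
  allTo 34 fun r => force (nth lM r) fun R => force (nth yM r) fun YR => force (d32 R 34) fun S =>
    allTo 34 fun c => force (nth lM c) fun C =>
      Nat.beq (d56 YR c + 8388608 * (S + d32 C 34))
        (sumN 34 (fun k => d32 R k * d32 C k) + 2533274790395904)

/-- Gram matrix of the second kernel for the trivial component, minus the third kernel -/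
noncomputable def y0chk : Bool :=
  allTo 34 fun r => force (nth lB0 r) fun R => force (nth yB r) fun YR => force (nth yM r) fun MR =>
    force (d32 R 34) fun S =>
    allTo 34 fun c => force (nth lB0 c) fun C =>
      Nat.beq (d56 (d448 YR c) 0 + d56 MR c + 8388608 * (S + d32 C 34))
        (sumN 34 (fun k => d32 R k * d32 C k) + 2674012278751232)

/-- sums of rows -/
noncomputable def schk (l : List ℕ) : Bool :=
  allTo 34 fun r => force (nth l r) fun R => Nat.beq (d32 R 34) (sumN 34 fun k => d32 R k)

/-- sums of the seven digits of an entry -/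
noncomputable def s7chk (y : List ℕ) : Bool :=
  allTo 34 fun r => force (nth y r) fun R => allTo 34 fun c => force (d448 R c) fun X =>
    Nat.beq (d56 X 7) (sumN 7 fun J => d56 X J)

/-- the table of the trigonometric kernels -/
noncomputable def cchk : Bool :=
  allTo 24 fun m => force (d256 cT m) fun C => (Nat.beq (d32 C 7) (sumN 7 fun J => d32 C J)).and
    (allTo 7 fun J => force (nth cL J) fun T =>
      Nat.beq (d32 C J + 100 * (sumN 24 (fun l => d16 T l) + sumN 24 fun l => d16 T ((l + m) % 24)))
        (sumN 24 (fun l => d16 T l * d16 T ((l + m) % 24)) + 262144 + 240000))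

/-- zero rows -/
noncomputable def zchk (y : List ℕ) : Bool :=
  allTo 4 fun r => allTo 34 fun c => allTo 6 fun J =>
    (Nat.beq (d56 (d448 (nth y (11 * r)) c) (J + 1)) 140737488355328).and
    (Nat.beq (d56 (d448 (nth y c) (11 * r)) (J + 1)) 140737488355328)

/-- subtraction modulo eleven -/
def sb (a b : ℕ) : ℕ := (a + (11 - b)) % 11

/-- addition modulo eleven -/
def ad (a b : ℕ) : ℕ := (a + b) % 11

/-- exchange of the types one and two -/
def sgn3 (t : ℕ) : ℕ := Nat.rec 0 (fun k _ => 2 - k) t

/-- row of the table of a localizer -/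
noncomputable def rowOf (tau r : ℕ) : ℕ := Nat.rec (nth yA r) (fun _ _ => nth yB r) tau

/-- permuted type -/
def pm (tau t : ℕ) : ℕ := Nat.rec t (fun k _ => Nat.rec t (fun _ _ => sgn3 t) k) tau

/-- dot product of seven digits -/
def dot7 (X Y : ℕ) : ℕ := sumN 7 fun J => d56 X J * d32 Y J

/-- evaluation of a kernel -/
noncomputable def evq (tau t1 k1 a1 t2 k2 a2 : ℕ) (f : ℕ → ℕ → Bool) : Bool :=
  force (rowOf tau (11 * pm tau t1 + k1)) fun R => force (d448 R (11 * pm tau t2 + k2)) fun X =>
    force (d256 cT ((a1 + (24 - a2)) % 24)) fun C =>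
    force (dot7 X C) fun D => force (262144 * d56 X 7 + 140737488355328 * d32 C 7) fun S => f D S

/-- multipliers -/
noncomputable def lamv (t u k : ℕ) : ℕ := d64 (nth lamT (3 * t + u)) k

/-- one coefficient of order three -/
noncomputable def chk1 (t0 t1 x1 x2 t2 y1 y2 E : ℕ) : Bool :=
  force (sb y1 x1) fun z1 => force (sb y2 x2) fun z2 =>
  force (sb x1 y1) fun w1 => force (sb x2 y2) fun w2 =>
  force (d8 clT (11 * x1 + x2)) fun kx => force (d8 clT (11 * y1 + y2)) fun ky =>
  force (d8 clT (11 * z1 + z2)) fun kz =>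
  force (d8 anT (11 * x1 + x2)) fun ax => force (d8 anT (11 * y1 + y2)) fun ay =>
  force (d8 anT (11 * z1 + z2)) fun az =>
  force (d8 anT (11 * sb 0 x1 + sb 0 x2)) fun ax' =>
  force (d8 anT (11 * sb 0 y1 + sb 0 y2)) fun ay' =>
  force (d8 anT (11 * w1 + w2)) fun az' =>
  evq t0 t1 kx ax t2 ky ay fun D1 S1 => evq t1 t2 kz az t0 kx ax' fun D2 S2 =>
  evq t2 t0 ky ay' t1 kz az' fun D3 S3 =>
  Nat.ble (D1 + D2 + D3 + E) (S1 + S2 + S3
    + cond ((Nat.beq t0 t1).and (Nat.beq kx 0)) (lamv t0 t2 ky) 0
    + cond ((Nat.beq t1 t2).and (Nat.beq kz 0)) (lamv t1 t0 kx) 0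
    + cond ((Nat.beq t2 t0).and (Nat.beq ky 0)) (lamv t2 t1 kz) 0 + 1180591620717411303424)

/-- all coefficients of order three with given types -/
noncomputable def chk3 (t0 t1 t2 : ℕ) : Bool :=
  force (nth eT (9 * t0 + 3 * t1 + t2) + 774763251095801167872) fun E =>
  allTo 11 fun k => force (nth repT k / 11) fun x1 => force (nth repT k % 11) fun x2 =>
    allTo 11 fun y1 => allTo 11 fun y2 => chk1 t0 t1 x1 x2 t2 y1 y2 E

/-- the averaged kernel -/
noncomputable def pchk : Bool :=
  allTo 3 fun t => allTo 3 fun u => force (nth pT (3 * t + u)) fun P =>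
    allTo 11 fun x1 => allTo 11 fun x2 =>
      Nat.beq (d64 P (d8 clT (11 * x1 + x2)))
        (sumN 11 fun z1 => sumN 11 fun z2 => d56 (nth yM (11 * t + d8 clT (11 * z1 + z2)))
          (11 * u + d8 clT (11 * ad x1 z1 + ad x2 z2)))

end Pool.Agent.MP8b8716T
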