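import Mathlib
import Pool.Agent.Lib.MP_8b8716_co_TRI.Fn

set_option autoImplicit false
set_option maxRecDepth 100000

/-!
# MP_8b8716_co, TRI 11: kernel computations, coefficients of order three
-/

namespace Pool.Agent.MP8b8716T

theorem hQ0 : (allTo 3 fun t1 => allTo 3 fun t2 => chk3 0 t1 t2) = true := by decide +kernel

theorem hQ1 : (allTo 3 fun t1 => allTo 3 fun t2 => chk3 1 t1 t2) = true := by decide +kernel

theorem hQ2 : (allTo 3 fun t1 => allTo 3 fun t2 => chk3 2 t1 t2) = true := by decide +kernel

theorem hP : pchk = true := by decide +kernel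

end Pool.Agent.MP8b8716T
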