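import Mathlib
import Pool.Agent.Lib.MP_8b8716_co_TRI.Fn

set_option autoImplicit false
set_option maxRecDepth 100000

/-!
# MP_8b8716_co, TRI 11: kernel computations, Gram matrices
-/

namespace Pool.Agent.MP8b8716T

theorem hYA : (allTo 7 fun J => ychk (nthL lA J) yA J) = true := by decide +kernel

theorem hYB : (allTo 6 fun J => ychk (nthL lB (J + 1)) yB (J + 1)) = true := by decide +kernel

theorem hYM : mchk = true := by decide +kernel

theorem hY0 : y0chk = true := by decide +kernel

theorem hSA : (allTo 7 fun J => schk (nthL lA J)) = true := by decide +kernel

theorem hSB : (allTo 7 fun J => schk (nthL lB J)) = true := by decide +kernel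

theorem hSM : schk lM = true := by decide +kernel

theorem hS7A : s7chk yA = true := by decide +kernel

theorem hS7B : s7chk yB = true := by decide +kernel

theorem hC : cchk = true := by decide +kernel

theorem hZA : zchk yA = true := by decide +kernel

theorem hZB : zchk yB = true := by decide +kernel

end Pool.Agent.MP8b8716T
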