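import Mathlib

set_option autoImplicit false
set_option linter.unusedSectionVars false

/-!
# MP_8b8716_co, TRI 11: sums of squares for three functions on a finite abelian group
-/

noncomputable section

namespace Pool.Agent.MP8b8716T

open Finset

variable {V : Type} [AddCommGroup V] [Fintype V] [DecidableEq V]

/-- points with a type -/
abbrev Pt (V : Type) := Fin 3 × V

/-- moments of order one -/
def A1 (F : Fin 3 → V → ℝ) (t : Fin 3) : ℝ := ∑ h, F t h

/-- moments of order two -/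
def A2 (F : Fin 3 → V → ℝ) (t : Fin 3) (p : Pt V) : ℝ := ∑ h, F t h * F p.1 (h + p.2)

/-- moments of order three -/
def A3 (F : Fin 3 → V → ℝ) (t : Fin 3) (p r : Pt V) : ℝ :=
  ∑ h, F t h * F p.1 (h + p.2) * F r.1 (h + r.2)

theorem A2_swap (F : Fin 3 → V → ℝ) (t u : Fin 3) (x : V) : A2 F t (u, x) = A2 F u (t, -x) := by
  unfold A2
  refine Fintype.sum_equiv (Equiv.addRight x) _ _ fun h => ?_
  simp only [Equiv.coe_addRight]
  rw [show h + x + -x = h by abel, mul_comm]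

theorem A3_rot (F : Fin 3 → V → ℝ) (t u w : Fin 3) (x y : V) :
    A3 F t (u, x) (w, y) = A3 F u (w, y - x) (t, -x) := by
  unfold A3
  refine Fintype.sum_equiv (Equiv.addRight x) _ _ fun h => ?_
  simp only [Equiv.coe_addRight]
  rw [show h + x + -x = h by abel, show h + x + (y - x) = h + y by abel]
  ring

theorem A1_nonneg {F : Fin 3 → V → ℝ} (h0 : ∀ t h, 0 ≤ F t h) (t : Fin 3) : 0 ≤ A1 F t :=
  sum_nonneg fun h _ => h0 t h

theorem A2_nonneg {F : Fin 3 → V → ℝ} (h0 : ∀ t h, 0 ≤ F t h) (t : Fin 3) (p : Pt V) :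
    0 ≤ A2 F t p :=
  sum_nonneg fun _ _ => mul_nonneg (h0 _ _) (h0 _ _)

theorem A3_nonneg {F : Fin 3 → V → ℝ} (h0 : ∀ t h, 0 ≤ F t h) (t : Fin 3) (p r : Pt V) :
    0 ≤ A3 F t p r :=
  sum_nonneg fun _ _ => mul_nonneg (mul_nonneg (h0 _ _) (h0 _ _)) (h0 _ _)

/-- rotation of the triples -/
def rotE : Fin 3 × Pt V × Pt V ≃ Fin 3 × Pt V × Pt V where
  toFun z := (z.2.1.1, (z.2.2.1, z.2.2.2 - z.2.1.2), (z.1, -z.2.1.2))
  invFun z := (z.2.2.1, (z.1, -z.2.2.2), (z.2.1.1, z.2.1.2 - z.2.2.2))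
  left_inv z := by
    obtain ⟨t, ⟨u, x⟩, ⟨w, y⟩⟩ := z
    simp
  right_inv z := by
    obtain ⟨t, ⟨u, x⟩, ⟨w, y⟩⟩ := z
    simp

/-- sums of moments of order three, triples as one index -/
def S3 (F : Fin 3 → V → ℝ) (W : Fin 3 × Pt V × Pt V → ℝ) : ℝ :=
  ∑ z, W z * A3 F z.1 z.2.1 z.2.2

theorem S3_rot (F : Fin 3 → V → ℝ) (W : Fin 3 × Pt V × Pt V → ℝ) :
    S3 F W = S3 F fun z => W (rotE z) := by
  unfold S3
  symm
  refine Fintype.sum_equiv rotE _ _ fun z => ?_
  obtain ⟨t, ⟨u, x⟩, ⟨w, y⟩⟩ := z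
  rw [A3_rot]
  rfl

theorem S3_nonpos {F : Fin 3 → V → ℝ} (h0 : ∀ t h, 0 ≤ F t h) (W : Fin 3 × Pt V × Pt V → ℝ)
    (hW : ∀ t u w x y, W (t, (u, x), (w, y)) + W (u, (w, y - x), (t, -x)) +
      W (w, (t, -y), (u, x - y)) ≤ 0) : S3 F W ≤ 0 := by
  have h1 := S3_rot F W
  have h2 := S3_rot F fun z => W (rotE z)
  have h3 : S3 F W + S3 F (fun z => W (rotE z)) + S3 F (fun z => W (rotE (rotE z))) ≤ 0 := by
    unfold S3
    rw [← sum_add_distrib, ← sum_add_distrib]
    refine sum_nonpos fun z _ => ?_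
    rw [← add_mul, ← add_mul]
    refine mul_nonpos_of_nonpos_of_nonneg ?_ (A3_nonneg h0 _ _ _)
    obtain ⟨t, ⟨u, x⟩, ⟨w, y⟩⟩ := z
    have := hW t u w x y
    simp only [rotE, Equiv.coe_fn_mk]
    rw [show -x - (y - x) = -y by abel, show -(y - x) = x - y by abel]
    exact this
  linarith

/-- sums of moments of order two -/
def S2 (F : Fin 3 → V → ℝ) (W : Fin 3 → Pt V → ℝ) : ℝ := ∑ t, ∑ p, W t p * A2 F t p

theorem S2_swap (F : Fin 3 → V → ℝ) (W : Fin 3 → Pt V → ℝ) :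
    S2 F W = S2 F fun t p => W p.1 (t, -p.2) := by
  unfold S2
  simp only [Fintype.sum_prod_type]
  rw [sum_comm]
  refine sum_congr rfl fun u _ => sum_congr rfl fun t _ => ?_
  refine Fintype.sum_equiv (Equiv.neg V) _ _ fun x => ?_
  simp only [Equiv.neg_apply, neg_neg]
  rw [A2_swap]

theorem S2_nonpos {F : Fin 3 → V → ℝ} (h0 : ∀ t h, 0 ≤ F t h) (W : Fin 3 → Pt V → ℝ)
    (hW : ∀ t u x, W t (u, x) + W u (t, -x) ≤ 0) : S2 F W ≤ 0 := by
  have h1 := S2_swap F W
  have h3 : S2 F W + S2 F (fun t p => W p.1 (t, -p.2)) ≤ 0 := by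
    unfold S2
    rw [← sum_add_distrib]
    refine sum_nonpos fun t _ => ?_
    rw [← sum_add_distrib]
    refine sum_nonpos fun p _ => ?_
    rw [← add_mul]
    exact mul_nonpos_of_nonpos_of_nonneg (hW t p.1 p.2) (A2_nonneg h0 _ _)
  linarith

/-- positive semidefinite kernels -/
def PSD {ι : Type} [Fintype ι] (Q : ι → ι → ℝ) : Prop :=
  ∀ v : ι → ℝ, 0 ≤ ∑ i, ∑ j, Q i j * v i * v j

/-- values at the points of a translate -/
def ev (F : Fin 3 → V → ℝ) (h : V) : Option (Pt V) → ℝ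
  | none => 1
  | some p => F p.1 (h + p.2)

theorem quad_option (Q : Option (Pt V) → Option (Pt V) → ℝ) (F : Fin 3 → V → ℝ) (h : V) :
    ∑ i, ∑ j, Q i j * ev F h i * ev F h j = Q none none +
      ∑ p : Pt V, (Q none (some p) + Q (some p) none) * F p.1 (h + p.2) +
      ∑ p : Pt V, ∑ r : Pt V, Q (some p) (some r) * (F p.1 (h + p.2) * F r.1 (h + r.2)) := by
  rw [Fintype.sum_option]
  simp only [Fintype.sum_option, ev, mul_one]
  rw [sum_add_distrib]
  have : ∑ p : Pt V, (Q none (some p) + Q (some p) none) * F p.1 (h + p.2) =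
      ∑ p : Pt V, Q none (some p) * F p.1 (h + p.2) + ∑ p : Pt V, Q (some p) none * F p.1 (h + p.2) := by
    rw [← sum_add_distrib]
    exact sum_congr rfl fun p _ => add_mul _ _ _
  rw [this]
  have : ∑ p : Pt V, ∑ r : Pt V, Q (some p) (some r) * F p.1 (h + p.2) * F r.1 (h + r.2) =
      ∑ p : Pt V, ∑ r : Pt V, Q (some p) (some r) * (F p.1 (h + p.2) * F r.1 (h + r.2)) :=
    sum_congr rfl fun p _ => sum_congr rfl fun r _ => by ring
  rw [this]
  ring

/-- localized form -/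
def locF (F : Fin 3 → V → ℝ) (τ : Fin 3) (Q : Option (Pt V) → Option (Pt V) → ℝ) : ℝ :=
  Q none none * A1 F τ + ∑ p : Pt V, (Q none (some p) + Q (some p) none) * A2 F τ p +
    ∑ p : Pt V, ∑ r : Pt V, Q (some p) (some r) * A3 F τ p r

/-- form without localizer -/
def unlF (F : Fin 3 → V → ℝ) (Q : Option (Pt V) → Option (Pt V) → ℝ) : ℝ :=
  Fintype.card V * Q none none +
    ∑ p : Pt V, (Q none (some p) + Q (some p) none) * A1 F p.1 +
    ∑ p : Pt V, ∑ r : Pt V, Q (some p) (some r) * A2 F p.1 (r.1, r.2 - p.2)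

theorem locF_eq (F : Fin 3 → V → ℝ) (τ : Fin 3) (Q : Option (Pt V) → Option (Pt V) → ℝ) :
    locF F τ Q = ∑ h, F τ h * ∑ i, ∑ j, Q i j * ev F h i * ev F h j := by
  simp only [quad_option, mul_add, sum_add_distrib]
  unfold locF A1 A2 A3
  congr 1
  · congr 1
    · rw [mul_sum]
      exact sum_congr rfl fun h _ => mul_comm _ _
    · simp only [mul_sum]
      rw [sum_comm]
      exact sum_congr rfl fun h _ => sum_congr rfl fun p _ => by ring
  · symm
    simp only [mul_sum]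
    rw [sum_comm]
    refine sum_congr rfl fun p _ => ?_
    rw [sum_comm]
    exact sum_congr rfl fun r _ => sum_congr rfl fun h _ => by ring

theorem A2_shift (F : Fin 3 → V → ℝ) (p r : Pt V) :
    ∑ h, F p.1 (h + p.2) * F r.1 (h + r.2) = A2 F p.1 (r.1, r.2 - p.2) := by
  unfold A2
  refine Fintype.sum_equiv (Equiv.addRight p.2) _ _ fun h => ?_
  simp only [Equiv.coe_addRight]
  rw [show h + p.2 + (r.2 - p.2) = h + r.2 by abel]

theorem A1_shift (F : Fin 3 → V → ℝ) (p : Pt V) : ∑ h, F p.1 (h + p.2) = A1 F p.1 := by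
  unfold A1
  exact Fintype.sum_equiv (Equiv.addRight p.2) _ _ fun h => rfl

theorem unlF_eq (F : Fin 3 → V → ℝ) (Q : Option (Pt V) → Option (Pt V) → ℝ) :
    unlF F Q = ∑ h, ∑ i, ∑ j, Q i j * ev F h i * ev F h j := by
  simp only [quad_option, sum_add_distrib]
  unfold unlF
  congr 1
  · congr 1
    · rw [sum_const, nsmul_eq_mul, card_univ]
    · rw [sum_comm]
      refine sum_congr rfl fun p _ => ?_
      rw [← mul_sum, A1_shift]
  · symm
    rw [sum_comm]
    refine sum_congr rfl fun p _ => ?_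
    rw [sum_comm]
    refine sum_congr rfl fun r _ => ?_
    rw [← mul_sum, A2_shift]

theorem locF_nonneg {F : Fin 3 → V → ℝ} (h0 : ∀ t h, 0 ≤ F t h) (τ : Fin 3)
    {Q : Option (Pt V) → Option (Pt V) → ℝ} (hQ : PSD Q) : 0 ≤ locF F τ Q := by
  rw [locF_eq]
  exact sum_nonneg fun h _ => mul_nonneg (h0 _ _) (hQ _)

theorem coloc_nonneg {F : Fin 3 → V → ℝ} (h1 : ∀ t h, F t h ≤ 1) (τ : Fin 3)
    {Q : Option (Pt V) → Option (Pt V) → ℝ} (hQ : PSD Q) : 0 ≤ unlF F Q - locF F τ Q := by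
  rw [locF_eq, unlF_eq, ← sum_sub_distrib]
  refine sum_nonneg fun h _ => ?_
  have := mul_nonneg (sub_nonneg.mpr (h1 τ h)) (hQ (ev F h))
  linarith

theorem A1_mul_A1 (F : Fin 3 → V → ℝ) (t u : Fin 3) :
    A1 F t * A1 F u = ∑ x, A2 F t (u, x) := by
  unfold A1 A2
  rw [sum_mul, sum_comm]
  refine sum_congr rfl fun h _ => ?_
  rw [mul_sum]
  exact (Fintype.sum_equiv (Equiv.addLeft h) _ _ fun x => rfl).symm

theorem A1_mul3 (F : Fin 3 → V → ℝ) (t u w : Fin 3) :
    A1 F t * (A1 F u * A1 F w) = ∑ x, ∑ y, A3 F t (u, x) (w, y) := by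
  have h1 : ∀ h : V, ∑ x, ∑ y, F t h * F u (h + x) * F w (h + y) =
      F t h * (A1 F u * A1 F w) := by
    intro h
    have hu : ∑ x, F u (h + x) = A1 F u := Fintype.sum_equiv (Equiv.addLeft h) _ _ fun x => rfl
    have hw : ∑ x, F w (h + x) = A1 F w := Fintype.sum_equiv (Equiv.addLeft h) _ _ fun x => rfl
    simp only [← mul_sum, hw, ← sum_mul]
    rw [hu]
    ring
  unfold A3
  have h2 : ∑ x, ∑ y, ∑ h, F t h * F u (h + x) * F w (h + y) =
      ∑ h, ∑ x, ∑ y, F t h * F u (h + x) * F w (h + y) := by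
    symm
    rw [sum_comm]
    refine sum_congr rfl fun x _ => ?_
    rw [sum_comm]
  rw [h2, sum_congr rfl fun h _ => h1 h, ← sum_mul]
  rfl

/-- kernels of the certificate -/
def ker {ι : Type} (L : ℕ → ℕ → ℕ → ℝ) (C : ℕ → ZMod 24 → ℝ) (row : ι → ℕ) (an : ι → ZMod 24)
    (i j : ι) : ℝ :=
  ∑ J ∈ range 7, (∑ k ∈ range 34, L J (row i) k * L J (row j) k) *
    ∑ l, C J l * C J (l + (an i - an j))

theorem psd_ker {ι : Type} [Fintype ι] (L : ℕ → ℕ → ℕ → ℝ) (C : ℕ → ZMod 24 → ℝ) (row : ι → ℕ)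
    (an : ι → ZMod 24) : PSD (ker L C row an) := by
  intro v
  have h1 : ∀ i j, ker L C row an i j * v i * v j = ∑ J ∈ range 7, ∑ k ∈ range 34, ∑ l,
      (L J (row i) k * C J (l + an i) * v i) * (L J (row j) k * C J (l + an j) * v j) := by
    intro i j
    unfold ker
    rw [sum_mul, sum_mul]
    refine sum_congr rfl fun J _ => ?_
    have h2 : ∑ l, C J l * C J (l + (an i - an j)) = ∑ l, C J (l + an i) * C J (l + an j) := by
      symm
      refine Fintype.sum_equiv (Equiv.addRight (an j)) _ _ fun l => ?_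
      simp only [Equiv.coe_addRight]
      rw [show l + an j + (an i - an j) = l + an i by ring, mul_comm]
    rw [h2, sum_mul, sum_mul, sum_mul]
    refine sum_congr rfl fun k _ => ?_
    rw [mul_sum, sum_mul, sum_mul]
    exact sum_congr rfl fun l _ => by ring
  have h3 : ∑ i, ∑ j, ker L C row an i j * v i * v j = ∑ J ∈ range 7, ∑ k ∈ range 34, ∑ l,
      (∑ i, L J (row i) k * C J (l + an i) * v i) ^ 2 := by
    simp only [h1]
    have h4 : ∀ i, ∑ j, ∑ J ∈ range 7, ∑ k ∈ range 34, ∑ l,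
        (L J (row i) k * C J (l + an i) * v i) * (L J (row j) k * C J (l + an j) * v j) =
        ∑ J ∈ range 7, ∑ k ∈ range 34, ∑ l, (L J (row i) k * C J (l + an i) * v i) *
          ∑ j, (L J (row j) k * C J (l + an j) * v j) := by
      intro i
      rw [sum_comm]
      refine sum_congr rfl fun J _ => ?_
      rw [sum_comm]
      refine sum_congr rfl fun k _ => ?_
      rw [sum_comm]
      exact sum_congr rfl fun l _ => (mul_sum _ _ _).symm
    simp only [h4]
    rw [sum_comm]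
    refine sum_congr rfl fun J _ => ?_
    rw [sum_comm]
    refine sum_congr rfl fun k _ => ?_
    rw [sum_comm]
    refine sum_congr rfl fun l _ => ?_
    rw [← sum_mul, sq]
  rw [h3]
  exact sum_nonneg fun J _ => sum_nonneg fun k _ => sum_nonneg fun l _ => sq_nonneg _

end Pool.Agent.MP8b8716T
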