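import Mathlib
import Pool.Agent.Lib.MP_8b8716_co_TRI.Core

set_option autoImplicit false
set_option linter.unusedSectionVars false

/-!
# MP_8b8716_co, TRI 11: the certificate theorem in general form
-/

noncomputable section

namespace Pool.Agent.MP8b8716T

open Finset

variable {V : Type} [AddCommGroup V] [Fintype V] [DecidableEq V]

theorem S3_add (F : Fin 3 → V → ℝ) (W W' : Fin 3 × Pt V × Pt V → ℝ) :
    S3 F W + S3 F W' = S3 F fun z => W z + W' z := by
  unfold S3
  rw [← sum_add_distrib]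
  exact sum_congr rfl fun z _ => (add_mul _ _ _).symm

theorem S2_add (F : Fin 3 → V → ℝ) (W W' : Fin 3 → Pt V → ℝ) :
    S2 F W + S2 F W' = S2 F fun t p => W t p + W' t p := by
  unfold S2
  rw [← sum_add_distrib]
  refine sum_congr rfl fun t _ => ?_
  rw [← sum_add_distrib]
  exact sum_congr rfl fun z _ => (add_mul _ _ _).symm

/-- sums of moments of order one -/
def S1 (F : Fin 3 → V → ℝ) (W : Fin 3 → ℝ) : ℝ := ∑ t, W t * A1 F t

theorem S1_add (F : Fin 3 → V → ℝ) (W W' : Fin 3 → ℝ) :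
    S1 F W + S1 F W' = S1 F fun t => W t + W' t := by
  unfold S1
  rw [← sum_add_distrib]
  exact sum_congr rfl fun z _ => (add_mul _ _ _).symm

theorem S3_ite (F : Fin 3 → V → ℝ) (τ : Fin 3) (G : Pt V → Pt V → ℝ) :
    S3 F (fun z => if z.1 = τ then G z.2.1 z.2.2 else 0) = ∑ p, ∑ r, G p r * A3 F τ p r := by
  unfold S3
  rw [Fintype.sum_prod_type]
  rw [Finset.sum_eq_single τ]
  · rw [Fintype.sum_prod_type]
    simp
  · intro b _ hb
    refine sum_eq_zero fun z _ => ?_
    simp [hb]
  · simp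

theorem S2_ite (F : Fin 3 → V → ℝ) (τ : Fin 3) (G : Pt V → ℝ) :
    S2 F (fun t p => if t = τ then G p else 0) = ∑ p, G p * A2 F τ p := by
  unfold S2
  rw [Finset.sum_eq_single τ]
  · simp
  · intro b _ hb
    refine sum_eq_zero fun z _ => ?_
    simp [hb]
  · simp

theorem S1_ite (F : Fin 3 → V → ℝ) (τ : Fin 3) (G : ℝ) :
    S1 F (fun t => if t = τ then G else 0) = G * A1 F τ := by
  unfold S1
  rw [Finset.sum_eq_single τ]
  · simp
  · intro b _ hb
    simp [hb]
  · simp

/-- exchange of the last two types -/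
def sg : Fin 3 ≃ Fin 3 := Equiv.swap 1 2

/-- exchange of the last two types of a point -/
def sgP (p : Pt V) : Pt V := (sg p.1, p.2)

theorem sg_sg (t : Fin 3) : sg (sg t) = t := Equiv.swap_apply_self 1 2 t

theorem sgP_sgP (p : Pt V) : sgP (sgP p) = p := by
  unfold sgP
  simp only [sg_sg]

/-- exchange as an equivalence -/
def sgE : Pt V ≃ Pt V := ⟨sgP, sgP, sgP_sgP, sgP_sgP⟩

/-- the function with exchanged types -/
def Fs (F : Fin 3 → V → ℝ) : Fin 3 → V → ℝ := fun t => F (sg t)

theorem A3_Fs (F : Fin 3 → V → ℝ) (t : Fin 3) (p r : Pt V) :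
    A3 (Fs F) t p r = A3 F (sg t) (sgP p) (sgP r) := rfl

theorem A2_Fs (F : Fin 3 → V → ℝ) (t : Fin 3) (p : Pt V) :
    A2 (Fs F) t p = A2 F (sg t) (sgP p) := rfl

theorem A1_Fs (F : Fin 3 → V → ℝ) (t : Fin 3) : A1 (Fs F) t = A1 F (sg t) := rfl

/-- local form as sums of moments -/
theorem locF_S (F : Fin 3 → V → ℝ) (τ : Fin 3) (Q : Option (Pt V) → Option (Pt V) → ℝ) :
    locF F τ Q = S3 F (fun z => if z.1 = τ then Q (some z.2.1) (some z.2.2) else 0) +
      S2 F (fun t p => if t = τ then Q none (some p) + Q (some p) none else 0) +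
      S1 F (fun t => if t = τ then Q none none else 0) := by
  rw [S3_ite F τ fun p r => Q (some p) (some r),
    S2_ite F τ fun p => Q none (some p) + Q (some p) none, S1_ite]
  unfold locF
  ring

theorem locFs_S (F : Fin 3 → V → ℝ) (Q : Option (Pt V) → Option (Pt V) → ℝ) :
    locF (Fs F) 1 Q =
      S3 F (fun z => if z.1 = 2 then Q (some (sgP z.2.1)) (some (sgP z.2.2)) else 0) +
      S2 F (fun t p => if t = 2 then Q none (some (sgP p)) + Q (some (sgP p)) none else 0) +
      S1 F (fun t => if t = 2 then Q none none else 0) := by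
  rw [S3_ite F 2 fun p r => Q (some (sgP p)) (some (sgP r)),
    S2_ite F 2 fun p => Q none (some (sgP p)) + Q (some (sgP p)) none, S1_ite]
  have h3 : ∑ p : Pt V, ∑ r : Pt V, Q (some (sgP p)) (some (sgP r)) * A3 F 2 p r =
      ∑ p : Pt V, ∑ r : Pt V, Q (some p) (some r) * A3 (Fs F) 1 p r := by
    refine Fintype.sum_equiv sgE _ _ fun p => ?_
    refine Fintype.sum_equiv sgE _ _ fun r => ?_
    rw [A3_Fs]
    show _ = Q (some (sgP p)) (some (sgP r)) * A3 F (sg 1) (sgP (sgP p)) (sgP (sgP r))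
    rw [sgP_sgP, sgP_sgP]
    rfl
  have h2 : ∑ p : Pt V, (Q none (some (sgP p)) + Q (some (sgP p)) none) * A2 F 2 p =
      ∑ p : Pt V, (Q none (some p) + Q (some p) none) * A2 (Fs F) 1 p := by
    refine Fintype.sum_equiv sgE _ _ fun p => ?_
    rw [A2_Fs]
    show _ = (Q none (some (sgP p)) + Q (some (sgP p)) none) * A2 F (sg 1) (sgP (sgP p))
    rw [sgP_sgP]
    rfl
  rw [h3, h2]
  unfold locF
  rw [show A1 (Fs F) 1 = A1 F 2 from rfl]
  ring

/-- translates summed -/
def av (Q : Option (Pt V) → Option (Pt V) → ℝ) (t : Fin 3) (p : Pt V) : ℝ :=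
  ∑ z, Q (some (t, z)) (some (p.1, p.2 + z))

/-- linear part summed -/
def av1 (Q : Option (Pt V) → Option (Pt V) → ℝ) (t : Fin 3) : ℝ :=
  ∑ z, (Q none (some (t, z)) + Q (some (t, z)) none)

theorem unlF_S (F : Fin 3 → V → ℝ) (Q : Option (Pt V) → Option (Pt V) → ℝ) :
    unlF F Q = S2 F (av Q) + S1 F (av1 Q) + Fintype.card V * Q none none := by
  have h1 : ∑ p : Pt V, (Q none (some p) + Q (some p) none) * A1 F p.1 = S1 F (av1 Q) := by
    unfold S1 av1
    rw [Fintype.sum_prod_type]
    refine sum_congr rfl fun t _ => ?_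
    rw [sum_mul]
  have h2 : ∑ p : Pt V, ∑ r : Pt V, Q (some p) (some r) * A2 F p.1 (r.1, r.2 - p.2) =
      S2 F (av Q) := by
    unfold S2 av
    rw [Fintype.sum_prod_type]
    refine sum_congr rfl fun t _ => ?_
    rw [sum_comm]
    rw [Fintype.sum_prod_type, Fintype.sum_prod_type]
    refine sum_congr rfl fun u _ => ?_
    have : ∀ z : V, ∑ y, Q (some (t, z)) (some (u, y)) * A2 F t (u, y - z) =
        ∑ x, Q (some (t, z)) (some (u, x + z)) * A2 F t (u, x) := by
      intro z
      symm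
      refine Fintype.sum_equiv (Equiv.addRight z) _ _ fun x => ?_
      simp only [Equiv.coe_addRight]
      rw [add_sub_cancel_right]
    rw [sum_comm]
    rw [sum_congr rfl fun z _ => this z, sum_comm]
    exact sum_congr rfl fun x _ => (sum_mul _ _ _).symm
  unfold unlF
  rw [h1, h2]
  ring

theorem unlFs_S (F : Fin 3 → V → ℝ) (Q : Option (Pt V) → Option (Pt V) → ℝ) :
    unlF (Fs F) Q = S2 F (fun t p => av Q (sg t) (sgP p)) + S1 F (fun t => av1 Q (sg t)) +
      Fintype.card V * Q none none := by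
  rw [unlF_S]
  congr 2
  · unfold S2
    refine Fintype.sum_equiv sg _ _ fun t => ?_
    refine Fintype.sum_equiv sgE _ _ fun p => ?_
    show av Q t p * A2 F (sg t) (sgP p) = av Q (sg (sg t)) (sgP (sgP p)) * A2 F (sg t) (sgP p)
    rw [sg_sg, sgP_sgP]
  · unfold S1
    refine Fintype.sum_equiv sg _ _ fun t => ?_
    show av1 Q t * A1 F (sg t) = av1 Q (sg (sg t)) * A1 F (sg t)
    rw [sg_sg]

/-- values of the constant and the moments of order one -/
def ev1 (F : Fin 3 → V → ℝ) : Option (Fin 3) → ℝ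
  | none => 1
  | some t => A1 F t

/-- the quadratic form in the mean values -/
def qf (F : Fin 3 → V → ℝ) (P : Option (Fin 3) → Option (Fin 3) → ℝ) : ℝ :=
  ∑ i, ∑ j, P i j * ev1 F i * ev1 F j

theorem qf_eq (F : Fin 3 → V → ℝ) (P : Option (Fin 3) → Option (Fin 3) → ℝ) :
    qf F P = P none none + ∑ t, (P none (some t) + P (some t) none) * A1 F t +
      ∑ t, ∑ u, P (some t) (some u) * (A1 F t * A1 F u) := by
  unfold qf
  simp only [Fintype.sum_option, ev1, Fin.sum_univ_three]
  ring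

theorem qf_S (F : Fin 3 → V → ℝ) (P : Option (Fin 3) → Option (Fin 3) → ℝ) :
    qf F P = S2 F (fun t p => P (some t) (some p.1)) +
      S1 F (fun t => P none (some t) + P (some t) none) + P none none := by
  rw [qf_eq]
  have h2 : ∑ t, ∑ u, P (some t) (some u) * (A1 F t * A1 F u) =
      S2 F (fun t p => P (some t) (some p.1)) := by
    unfold S2
    refine sum_congr rfl fun t _ => ?_
    rw [Fintype.sum_prod_type]
    refine sum_congr rfl fun u _ => ?_
    rw [A1_mul_A1, mul_sum]
  rw [h2]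
  unfold S1
  ring

theorem A1_qf_S (F : Fin 3 → V → ℝ) (P : Option (Fin 3) → Option (Fin 3) → ℝ) :
    A1 F 0 * qf F P = S3 F (fun z => if z.1 = 0 then P (some z.2.1.1) (some z.2.2.1) else 0) +
      S2 F (fun t p => if t = 0 then P none (some p.1) + P (some p.1) none else 0) +
      S1 F (fun t => if t = 0 then P none none else 0) := by
  rw [S3_ite F 0 fun p r => P (some p.1) (some r.1),
    S2_ite F 0 fun p => P none (some p.1) + P (some p.1) none, S1_ite, qf_eq]
  have h3 : ∑ p : Pt V, ∑ r : Pt V, P (some p.1) (some r.1) * A3 F 0 p r =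
      A1 F 0 * ∑ t, ∑ u, P (some t) (some u) * (A1 F t * A1 F u) := by
    rw [Fintype.sum_prod_type, mul_sum]
    refine sum_congr rfl fun t _ => ?_
    have : ∀ x : V, ∑ r : Pt V, P (some t) (some r.1) * A3 F 0 (t, x) r =
        ∑ u, P (some t) (some u) * ∑ y, A3 F 0 (t, x) (u, y) := by
      intro x
      rw [Fintype.sum_prod_type]
      refine sum_congr rfl fun u _ => ?_
      dsimp only
      rw [mul_sum]
    rw [sum_congr rfl fun x _ => this x, sum_comm, mul_sum]
    refine sum_congr rfl fun u _ => ?_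
    rw [← mul_sum, ← A1_mul3]
    ring
  have h2 : ∑ p : Pt V, (P none (some p.1) + P (some p.1) none) * A2 F 0 p =
      A1 F 0 * ∑ t, (P none (some t) + P (some t) none) * A1 F t := by
    rw [Fintype.sum_prod_type, mul_sum]
    refine sum_congr rfl fun t _ => ?_
    dsimp only
    rw [← mul_sum, ← A1_mul_A1]
    ring
  rw [h3, h2]
  ring

theorem mult_S (F : Fin 3 → V → ℝ) (lam : Fin 3 → Pt V → ℝ) :
    ∑ t, ∑ p, lam t p * (A2 F t p - A3 F t (t, 0) p) =
      S3 F (fun z => if z.2.1 = (z.1, 0) then -lam z.1 z.2.2 else 0) + S2 F lam := by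
  have h3 : S3 F (fun z => if z.2.1 = (z.1, 0) then -lam z.1 z.2.2 else 0) =
      ∑ t, ∑ p, -lam t p * A3 F t (t, 0) p := by
    unfold S3
    rw [Fintype.sum_prod_type]
    refine sum_congr rfl fun t _ => ?_
    rw [Fintype.sum_prod_type]
    rw [Finset.sum_eq_single (t, (0 : V))]
    · simp
    · intro b _ hb
      refine sum_eq_zero fun r _ => ?_
      simp [hb]
    · simp
  rw [h3]
  unfold S2
  rw [← sum_add_distrib]
  refine sum_congr rfl fun t _ => ?_
  rw [← sum_add_distrib]
  exact sum_congr rfl fun p _ => by ring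

theorem nu_S (F : Fin 3 → V → ℝ) (nu : Fin 3 → ℝ) :
    ∑ t, nu t * (A1 F t - A2 F t (t, 0)) =
      S2 F (fun t p => if p = (t, 0) then -nu t else 0) + S1 F nu := by
  have h3 : S2 F (fun t p => if p = (t, 0) then -nu t else 0) =
      ∑ t, -nu t * A2 F t (t, 0) := by
    unfold S2
    refine sum_congr rfl fun t _ => ?_
    rw [Finset.sum_eq_single (t, (0 : V))]
    · simp
    · intro b _ hb
      simp [hb]
    · simp
  rw [h3]
  unfold S1
  rw [← sum_add_distrib]
  exact sum_congr rfl fun p _ => by ring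

/-- coefficients of order three -/
def W3 (c : ℝ) (QA QB : Option (Pt V) → Option (Pt V) → ℝ)
    (P : Option (Fin 3) → Option (Fin 3) → ℝ) (lam : Fin 3 → Pt V → ℝ)
    (z : Fin 3 × Pt V × Pt V) : ℝ :=
  (if z.1 = 0 then QA (some z.2.1) (some z.2.2) + c * P (some z.2.1.1) (some z.2.2.1) else 0) +
  (if z.1 = 1 then QB (some z.2.1) (some z.2.2) else 0) +
  (if z.1 = 2 then QB (some (sgP z.2.1)) (some (sgP z.2.2)) else 0) +
  (if z.2.1 = (z.1, 0) then -lam z.1 z.2.2 else 0)

/-- coefficients of order two -/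
def W2 (c lo hi : ℝ) (QA QB Qm : Option (Pt V) → Option (Pt V) → ℝ)
    (P1 P2 : Option (Fin 3) → Option (Fin 3) → ℝ) (lam : Fin 3 → Pt V → ℝ) (nu : Fin 3 → ℝ)
    (t : Fin 3) (p : Pt V) : ℝ :=
  (if t = 0 then QA none (some p) + QA (some p) none + c * (P1 none (some p.1) +
    P1 (some p.1) none - (P2 none (some p.1) + P2 (some p.1) none)) else 0) +
  (if t = 1 then QB none (some p) + QB (some p) none else 0) +
  (if t = 2 then QB none (some (sgP p)) + QB (some (sgP p)) none else 0) +
  av Qm t p + av Qm (sg t) (sgP p) +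
  (hi * P2 (some t) (some p.1) - lo * P1 (some t) (some p.1)) +
  lam t p + (if p = (t, 0) then -nu t else 0)

/-- coefficients of order one -/
def W1 (c lo hi : ℝ) (QA QB Qm : Option (Pt V) → Option (Pt V) → ℝ)
    (P1 P2 : Option (Fin 3) → Option (Fin 3) → ℝ) (nu : Fin 3 → ℝ) (t : Fin 3) : ℝ :=
  (if t = 0 then QA none none + c * (P1 none none - P2 none none) else 0) +
  (if t = 1 then QB none none else 0) +
  (if t = 2 then QB none none else 0) +
  av1 Qm t + av1 Qm (sg t) +
  (hi * (P2 none (some t) + P2 (some t) none) - lo * (P1 none (some t) + P1 (some t) none)) + nu t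

theorem core {F : Fin 3 → V → ℝ} (h0 : ∀ t h, 0 ≤ F t h) (h1 : ∀ t h, F t h ≤ 1)
    {c lo hi : ℝ} (hlo : lo ≤ c * A1 F 0) (hhi : c * A1 F 0 ≤ hi)
    {QA Qb Qm : Option (Pt V) → Option (Pt V) → ℝ} (hA : PSD QA) (hb : PSD Qb) (hm : PSD Qm)
    {P1 P2 : Option (Fin 3) → Option (Fin 3) → ℝ} (hP1 : PSD P1) (hP2 : PSD P2)
    {lam : Fin 3 → Pt V → ℝ} (hlam : ∀ t p, 0 ≤ lam t p) {nu : Fin 3 → ℝ} (hnu : ∀ t, 0 ≤ nu t)
    (h3 : S3 F (W3 c QA (fun i j => Qb i j - Qm i j) (fun i j => P1 i j - P2 i j) lam) ≤ 0) :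
    0 ≤ S2 F (W2 c lo hi QA (fun i j => Qb i j - Qm i j) Qm P1 P2 lam nu) +
      S1 F (W1 c lo hi QA (fun i j => Qb i j - Qm i j) Qm P1 P2 nu) +
      (2 * Fintype.card V * Qm none none + hi * P2 none none - lo * P1 none none) := by
  have h0s : ∀ t h, 0 ≤ Fs F t h := fun t h => h0 _ _
  have h1s : ∀ t h, Fs F t h ≤ 1 := fun t h => h1 _ _
  have e1 := locF_nonneg h0 0 hA
  have e2 := locF_nonneg h0 1 hb
  have e3 := locF_nonneg h0s 1 hb
  have e4 := coloc_nonneg h1 1 hm
  have e5 := coloc_nonneg h1s 1 hm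
  have e6 : 0 ≤ (c * A1 F 0 - lo) * qf F P1 := mul_nonneg (sub_nonneg.mpr hlo) (hP1 _)
  have e7 : 0 ≤ (hi - c * A1 F 0) * qf F P2 := mul_nonneg (sub_nonneg.mpr hhi) (hP2 _)
  have e8 : 0 ≤ ∑ t, ∑ p, lam t p * (A2 F t p - A3 F t (t, 0) p) := by
    refine sum_nonneg fun t _ => sum_nonneg fun p _ => mul_nonneg (hlam _ _) ?_
    unfold A2 A3
    rw [← sum_sub_distrib]
    refine sum_nonneg fun h _ => ?_
    rw [add_zero]
    have := mul_nonneg (mul_nonneg (h0 t h) (sub_nonneg.mpr (h1 t h))) (h0 p.1 (h + p.2))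
    linarith
  have e9 : 0 ≤ ∑ t, nu t * (A1 F t - A2 F t (t, 0)) := by
    refine sum_nonneg fun t _ => mul_nonneg (hnu _) ?_
    unfold A1 A2
    rw [← sum_sub_distrib]
    refine sum_nonneg fun h _ => ?_
    rw [add_zero]
    have := mul_nonneg (h0 t h) (sub_nonneg.mpr (h1 t h))
    linarith
  have e6' : (c * A1 F 0 - lo) * qf F P1 = c * (A1 F 0 * qf F P1) - lo * qf F P1 := by ring
  have e7' : (hi - c * A1 F 0) * qf F P2 = hi * qf F P2 - c * (A1 F 0 * qf F P2) := by ring
  rw [e6', A1_qf_S, qf_S] at e6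
  rw [e7', A1_qf_S, qf_S] at e7
  rw [locF_S] at e1 e2
  rw [locFs_S] at e3
  rw [unlF_S, locF_S] at e4
  rw [unlFs_S, locFs_S] at e5
  rw [mult_S] at e8
  rw [nu_S] at e9
  have hS3 : S3 F (W3 c QA (fun i j => Qb i j - Qm i j) (fun i j => P1 i j - P2 i j) lam) =
      S3 F (fun z => if z.1 = 0 then QA (some z.2.1) (some z.2.2) else 0) +
      c * (S3 F (fun z => if z.1 = 0 then P1 (some z.2.1.1) (some z.2.2.1) else 0) -
        S3 F (fun z => if z.1 = 0 then P2 (some z.2.1.1) (some z.2.2.1) else 0)) +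
      (S3 F (fun z => if z.1 = 1 then Qb (some z.2.1) (some z.2.2) else 0) -
        S3 F (fun z => if z.1 = 1 then Qm (some z.2.1) (some z.2.2) else 0)) +
      (S3 F (fun z => if z.1 = 2 then Qb (some (sgP z.2.1)) (some (sgP z.2.2)) else 0) -
        S3 F (fun z => if z.1 = 2 then Qm (some (sgP z.2.1)) (some (sgP z.2.2)) else 0)) +
      S3 F (fun z => if z.2.1 = (z.1, 0) then -lam z.1 z.2.2 else 0) := by
    unfold S3 W3
    simp only [mul_sum, ← sum_add_distrib, ← sum_sub_distrib]
    refine sum_congr rfl fun z _ => ?_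
    split_ifs <;> ring
  have hS2 : S2 F (W2 c lo hi QA (fun i j => Qb i j - Qm i j) Qm P1 P2 lam nu) =
      S2 F (fun t p => if t = 0 then QA none (some p) + QA (some p) none else 0) +
      c * (S2 F (fun t p => if t = 0 then P1 none (some p.1) + P1 (some p.1) none else 0) -
        S2 F (fun t p => if t = 0 then P2 none (some p.1) + P2 (some p.1) none else 0)) +
      (S2 F (fun t p => if t = 1 then Qb none (some p) + Qb (some p) none else 0) -
        S2 F (fun t p => if t = 1 then Qm none (some p) + Qm (some p) none else 0)) +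
      (S2 F (fun t p => if t = 2 then Qb none (some (sgP p)) + Qb (some (sgP p)) none else 0) -
        S2 F (fun t p => if t = 2 then Qm none (some (sgP p)) + Qm (some (sgP p)) none else 0)) +
      S2 F (av Qm) + S2 F (fun t p => av Qm (sg t) (sgP p)) +
      (hi * S2 F (fun t p => P2 (some t) (some p.1)) -
        lo * S2 F (fun t p => P1 (some t) (some p.1))) +
      S2 F lam + S2 F (fun t p => if p = (t, 0) then -nu t else 0) := by
    unfold S2 W2
    simp only [mul_sum, ← sum_add_distrib, ← sum_sub_distrib]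
    refine sum_congr rfl fun t _ => sum_congr rfl fun p _ => ?_
    split_ifs <;> ring
  have hS1 : S1 F (W1 c lo hi QA (fun i j => Qb i j - Qm i j) Qm P1 P2 nu) =
      S1 F (fun t => if t = 0 then QA none none else 0) +
      c * (S1 F (fun t => if t = 0 then P1 none none else 0) -
        S1 F (fun t => if t = 0 then P2 none none else 0)) +
      (S1 F (fun t => if t = 1 then Qb none none else 0) -
        S1 F (fun t => if t = 1 then Qm none none else 0)) +
      (S1 F (fun t => if t = 2 then Qb none none else 0) -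
        S1 F (fun t => if t = 2 then Qm none none else 0)) +
      S1 F (av1 Qm) + S1 F (fun t => av1 Qm (sg t)) +
      (hi * S1 F (fun t => P2 none (some t) + P2 (some t) none) -
        lo * S1 F (fun t => P1 none (some t) + P1 (some t) none)) +
      S1 F nu := by
    unfold S1 W1
    simp only [mul_sum, ← sum_add_distrib, ← sum_sub_distrib]
    refine sum_congr rfl fun t _ => ?_
    split_ifs <;> ring
  rw [hS3] at h3
  rw [hS2, hS1]
  linarith

end Pool.Agent.MP8b8716T
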