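import Mathlib
import Pool.Agent.Lib.MP_8b8716_co_TRI.ChkY
import Pool.Agent.Lib.MP_8b8716_co_TRI.Core2

set_option autoImplicit false
set_option maxRecDepth 100000

/-!
# MP_8b8716_co, TRI 11: meaning of the kernel computations
-/

noncomputable section

namespace Pool.Agent.MP8b8716T

open Finset

theorem allTo_spec {n : ℕ} {f : ℕ → Bool} (h : allTo n f = true) : ∀ i < n, f i = true := by
  induction n with
  | zero => intro i hi; omega
  | succ n ih =>
    have h' : ((f n).and (allTo n f)) = true := h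
    rw [Bool.and_eq_true] at h'
    intro i hi
    rcases Nat.lt_succ_iff_lt_or_eq.mp hi with h1 | h1
    · exact ih h'.2 i h1
    · rw [h1]
      exact h'.1

theorem sumN_eq (n : ℕ) (f : ℕ → ℕ) : sumN n f = ∑ i ∈ range n, f i := by
  induction n with
  | zero => rfl
  | succ n ih =>
    rw [sum_range_succ, ← ih]
    rfl

theorem force_eq (n : ℕ) (f : ℕ → Bool) : force n f = f n := by
  cases n <;> rfl

theorem sum_off (n : ℕ) (a b : ℕ → ℤ) (B C : ℤ) :
    ∑ k ∈ range n, (a k - B) * (b k - C) = ∑ k ∈ range n, a k * b k - C * ∑ k ∈ range n, a k -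
      B * ∑ k ∈ range n, b k + n * (B * C) := by
  induction n with
  | zero => simp
  | succ n ih =>
    rw [sum_range_succ, sum_range_succ, sum_range_succ, sum_range_succ, ih]
    push_cast
    ring

/-- entries of the factors -/
def LZ (l : List ℕ) (r k : ℕ) : ℤ := (d32 (nth l r) k : ℤ) - 8388608

/-- entries of the Gram tables -/
def YZ (y : List ℕ) (J r c : ℕ) : ℤ := (d56 (d448 (nth y r) c) J : ℤ) - 140737488355328

/-- entries of the third Gram table -/
def MZ (r c : ℕ) : ℤ := (d56 (nth yM r) c : ℤ) - 140737488355328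

/-- trigonometric kernels -/
def CZ (J m : ℕ) : ℤ := (d32 (d256 cT m) J : ℤ) - 262144

/-- approximate cosines -/
def KZ (J l : ℕ) : ℤ := (d16 (nth cL J) l : ℤ) - 100

theorem schk_spec {l : List ℕ} (h : schk l = true) :
    ∀ r < 34, d32 (nth l r) 34 = ∑ k ∈ range 34, d32 (nth l r) k := by
  intro r hr
  have h1 := allTo_spec h r hr
  simp only [force_eq, sumN_eq] at h1
  exact Nat.eq_of_beq_eq_true h1

theorem gram_aux {l : List ℕ} (hs : schk l = true) {r c : ℕ} (hr : r < 34) (hc : c < 34) {a off : ℕ}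
    (h : a + 8388608 * (d32 (nth l r) 34 + d32 (nth l c) 34) =
      ∑ k ∈ range 34, d32 (nth l r) k * d32 (nth l c) k + off) :
    (a : ℤ) - off + 2392537302040576 = ∑ k ∈ range 34, LZ l r k * LZ l c k := by
  unfold LZ
  rw [sum_off]
  have h1 := schk_spec hs r hr
  have h2 := schk_spec hs c hc
  rw [h1, h2] at h
  have h3 : (a : ℤ) + 8388608 * (∑ k ∈ range 34, (d32 (nth l r) k : ℤ) +
      ∑ k ∈ range 34, (d32 (nth l c) k : ℤ)) =
      ∑ k ∈ range 34, (d32 (nth l r) k : ℤ) * (d32 (nth l c) k : ℤ) + off := by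
    exact_mod_cast h
  push_cast
  linarith

theorem YZ_A {J r c : ℕ} (hJ : J < 7) (hr : r < 34) (hc : c < 34) :
    YZ yA J r c = ∑ k ∈ range 34, LZ (nthL lA J) r k * LZ (nthL lA J) c k := by
  have h1 := allTo_spec (allTo_spec hYA J hJ) r hr
  simp only [force_eq, sumN_eq] at h1
  have h2 := Nat.eq_of_beq_eq_true (allTo_spec h1 c hc)
  rw [← gram_aux (allTo_spec hSA J hJ) hr hc h2]
  unfold YZ
  push_cast
  ring

theorem MZ_eq {r c : ℕ} (hr : r < 34) (hc : c < 34) :
    MZ r c = ∑ k ∈ range 34, LZ lM r k * LZ lM c k := by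
  have h1 := allTo_spec hYM r hr
  simp only [force_eq, sumN_eq] at h1
  have h2 := Nat.eq_of_beq_eq_true (allTo_spec h1 c hc)
  rw [← gram_aux hSM hr hc h2]
  unfold MZ
  push_cast
  ring

theorem YZ_B {J r c : ℕ} (hJ : J < 7) (hr : r < 34) (hc : c < 34) :
    YZ yB J r c = ∑ k ∈ range 34, LZ (nthL lB J) r k * LZ (nthL lB J) c k -
      if J = 0 then MZ r c else 0 := by
  rcases Nat.eq_zero_or_pos J with h0 | h0
  · subst h0
    have h1 := allTo_spec hY0 r hr
    simp only [force_eq, sumN_eq] at h1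
    have h2 := Nat.eq_of_beq_eq_true (allTo_spec h1 c hc)
    rw [if_pos rfl]
    rw [show nthL lB 0 = lB0 from rfl, ← gram_aux (show schk lB0 = true from allTo_spec hSB 0 hJ) hr hc h2]
    unfold YZ MZ
    push_cast
    ring
  · obtain ⟨J, rfl⟩ : ∃ J', J = J' + 1 := ⟨J - 1, by omega⟩
    have h1 := allTo_spec (allTo_spec hYB J (by omega)) r hr
    simp only [force_eq, sumN_eq] at h1
    have h2 := Nat.eq_of_beq_eq_true (allTo_spec h1 c hc)
    rw [if_neg (by omega), ← gram_aux (allTo_spec hSB (J + 1) hJ) hr hc h2]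
    unfold YZ
    push_cast
    ring

theorem CZ_eq {J m : ℕ} (hJ : J < 7) (hm : m < 24) :
    CZ J m = ∑ l ∈ range 24, KZ J l * KZ J ((l + m) % 24) := by
  have h1 := allTo_spec hC m hm
  simp only [force_eq, sumN_eq] at h1
  rw [Bool.and_eq_true] at h1
  have h2 := Nat.eq_of_beq_eq_true (allTo_spec h1.2 J hJ)
  unfold CZ KZ
  rw [sum_off 24 (fun l => (d16 (nth cL J) l : ℤ)) (fun l => (d16 (nth cL J) ((l + m) % 24) : ℤ))]
  have h3 : (d32 (d256 cT m) J : ℤ) + 100 * (∑ l ∈ range 24, (d16 (nth cL J) l : ℤ) +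
      ∑ l ∈ range 24, (d16 (nth cL J) ((l + m) % 24) : ℤ)) =
      ∑ l ∈ range 24, (d16 (nth cL J) l : ℤ) * (d16 (nth cL J) ((l + m) % 24) : ℤ) + 262144 +
      240000 := by
    exact_mod_cast h2
  push_cast
  linarith

theorem CZ_sum {m : ℕ} (hm : m < 24) : d32 (d256 cT m) 7 = ∑ J ∈ range 7, d32 (d256 cT m) J := by
  have h1 := allTo_spec hC m hm
  simp only [force_eq, sumN_eq] at h1
  rw [Bool.and_eq_true] at h1
  exact Nat.eq_of_beq_eq_true h1.1

theorem s7_spec {y : List ℕ} (h : s7chk y = true) : ∀ r < 34, ∀ c < 34,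
    d56 (d448 (nth y r) c) 7 = ∑ J ∈ range 7, d56 (d448 (nth y r) c) J := by
  intro r hr c hc
  have h1 := allTo_spec h r hr
  simp only [force_eq, sumN_eq] at h1
  exact Nat.eq_of_beq_eq_true (allTo_spec h1 c hc)

/-- the kernels -/
def qZ (y : List ℕ) (r c m : ℕ) : ℤ := ∑ J ∈ range 7, YZ y J r c * CZ J m

theorem qZ_eq {y : List ℕ} (h : s7chk y = true) {r c m : ℕ} (hr : r < 34) (hc : c < 34)
    (hm : m < 24) :
    qZ y r c m = (dot7 (d448 (nth y r) c) (d256 cT m) : ℤ) -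
      ((262144 * d56 (d448 (nth y r) c) 7 + 140737488355328 * d32 (d256 cT m) 7 : ℕ) : ℤ) +
      258254417031933722624 := by
  unfold qZ YZ CZ dot7
  rw [sum_off 7 (fun J => (d56 (d448 (nth y r) c) J : ℤ)) (fun J => (d32 (d256 cT m) J : ℤ)),
    sumN_eq, s7_spec h r hr c hc, CZ_sum hm]
  push_cast
  ring

theorem CZ_zero : ∀ m < 24, CZ 0 m = 240000 := by
  unfold CZ
  decide +kernel

theorem z_spec {y : List ℕ} (h : zchk y = true) {J r c : ℕ} (hJ0 : 0 < J) (hJ : J < 7) (hr : r < 34)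
    (hc : c < 34) (h0 : r % 11 = 0 ∨ c % 11 = 0) : YZ y J r c = 0 := by
  obtain ⟨J, rfl⟩ : ∃ J', J = J' + 1 := ⟨J - 1, by omega⟩
  rcases h0 with h0 | h0
  · obtain ⟨r, rfl⟩ : ∃ r', r = 11 * r' := ⟨r / 11, by omega⟩
    have h1 := allTo_spec (allTo_spec (allTo_spec h r (by omega)) c hc) J (by omega)
    rw [Bool.and_eq_true] at h1
    unfold YZ
    rw [Nat.eq_of_beq_eq_true h1.1]
    norm_num
  · obtain ⟨c, rfl⟩ : ∃ c', c = 11 * c' := ⟨c / 11, by omega⟩
    have h1 := allTo_spec (allTo_spec (allTo_spec h c (by omega)) r hr) J (by omega)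
    rw [Bool.and_eq_true] at h1
    unfold YZ
    rw [Nat.eq_of_beq_eq_true h1.2]
    norm_num

theorem qZ_zero {y : List ℕ} (h : zchk y = true) {r c m : ℕ} (hr : r < 34) (hc : c < 34)
    (hm : m < 24) (h0 : r % 11 = 0 ∨ c % 11 = 0) : qZ y r c m = YZ y 0 r c * 240000 := by
  unfold qZ
  rw [sum_range_succ', sum_eq_zero, CZ_zero m hm, zero_add]
  intro J hJ
  rw [z_spec h (by omega) (by have := mem_range.mp hJ; omega) hr hc h0, zero_mul]

end Pool.Agent.MP8b8716T
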