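import Mathlib
import Pool.Agent.Lib.MP_8b8716_co_TRI.Sound

set_option autoImplicit false
set_option maxRecDepth 100000

/-!
# MP_8b8716_co, TRI 11: the plane over the field with eleven elements
-/

noncomputable section

namespace Pool.Agent.MP8b8716T

open Finset

/-- the plane over the field with eleven elements -/
abbrev VV11 := ZMod 11 × ZMod 11

/-- index of a point -/
def ix (x : VV11) : ℕ := 11 * x.1.val + x.2.val

/-- class of a point: its norm -/
def clV (x : VV11) : ℕ := d8 clT (ix x)

/-- angle of a point -/
def anV (x : VV11) : ℕ := d8 anT (ix x)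

/-- multiplication by an element of order twelve -/
def rot (x : VV11) : VV11 := (3 * x.1 - 5 * x.2, 5 * x.1 + 3 * x.2)

theorem clV_lt : ∀ x, clV x < 11 := by
  unfold clV ix
  decide +kernel

theorem anV_lt : ∀ x, anV x < 24 := by
  unfold anV ix
  decide +kernel

theorem clV_neg : ∀ x, clV (-x) = clV x := by
  unfold clV ix
  decide +kernel

theorem clV_eq_zero : ∀ x, clV x = 0 ↔ x = 0 := by
  unfold clV ix
  decide +kernel

theorem clV_one : ∀ x : VV11, clV x = 1 ↔ x.1 ^ 2 + x.2 ^ 2 = 1 := by
  unfold clV ix
  decide +kernel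

theorem clV_rot : ∀ x, clV (rot x) = clV x := by
  unfold clV ix rot
  decide +kernel

theorem anV_rot : ∀ x, x ≠ 0 → anV (rot x) = (anV x + 2) % 24 := by
  unfold anV ix rot
  decide +kernel

/-- representatives of the classes -/
def repV (k : ℕ) : VV11 := (((nth repT k / 11 : ℕ) : ZMod 11), ((nth repT k % 11 : ℕ) : ZMod 11))

theorem rep_exists : ∀ x : VV11, ∃ s : Fin 12, ∃ k : Fin 11, x = rot^[s.val] (repV k.val) := by
  unfold rot repV
  decide +kernel

theorem repV_val : ∀ k : Fin 11, (repV k.val).1.val = nth repT k.val / 11 ∧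
    (repV k.val).2.val = nth repT k.val % 11 := by
  unfold repV
  decide +kernel

theorem sb_val : ∀ a b : ZMod 11, (a - b).val = sb a.val b.val := by
  decide +kernel

theorem ad_val : ∀ a b : ZMod 11, (a + b).val = ad a.val b.val := by
  decide +kernel

end Pool.Agent.MP8b8716T
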