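import Mathlib
import Pool.Agent.Lib.MP_8b8716_co_TRI.VFacts
import Pool.Agent.Lib.MP_8b8716_co_TRI.ChkQ

set_option autoImplicit false
set_option maxRecDepth 100000

/-!
# MP_8b8716_co, TRI 11: the kernels on the plane over the field with eleven elements
-/

noncomputable section

namespace Pool.Agent.MP8b8716T

open Finset

/-- row of a point -/
def rw' : Option (Pt VV11) → ℕ
  | none => 33
  | some p => 11 * p.1.val + clV p.2

/-- angle of a point -/
def an' : Option (Pt VV11) → ℕ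
  | none => 0
  | some p => anV p.2

theorem rw_lt (i : Option (Pt VV11)) : rw' i < 34 := by
  cases i with
  | none => decide
  | some p =>
    have h1 := clV_lt p.2
    have h2 := p.1.isLt
    show 11 * p.1.val + clV p.2 < 34
    omega

theorem an_lt (i : Option (Pt VV11)) : an' i < 24 := by
  cases i with
  | none => decide
  | some p => exact anV_lt p.2

/-- difference of angles -/
def mm (i j : Option (Pt VV11)) : ℕ := (an' i + (24 - an' j)) % 24

theorem mm_lt (i j : Option (Pt VV11)) : mm i j < 24 := Nat.mod_lt _ (by norm_num)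

/-- integer valued kernels -/
def qI (y : List ℕ) (i j : Option (Pt VV11)) : ℤ := qZ y (rw' i) (rw' j) (mm i j)

/-- the first kernel -/
def QA : Option (Pt VV11) → Option (Pt VV11) → ℝ :=
  ker (fun J r k => (LZ (nthL lA J) r k : ℝ)) (fun J l => (KZ J l.val : ℝ)) rw'
    fun i => (an' i : ZMod 24)

/-- the second kernel -/
def Qb : Option (Pt VV11) → Option (Pt VV11) → ℝ :=
  ker (fun J r k => (LZ (nthL lB J) r k : ℝ)) (fun J l => (KZ J l.val : ℝ)) rw'
    fun i => (an' i : ZMod 24)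

/-- the third kernel -/
def Qm : Option (Pt VV11) → Option (Pt VV11) → ℝ :=
  ker (fun J r k => if J = 0 then (LZ lM r k : ℝ) else 0) (fun J l => (KZ J l.val : ℝ)) rw'
    fun i => (an' i : ZMod 24)

theorem conv_eq {J : ℕ} (hJ : J < 7) (i j : Option (Pt VV11)) :
    ∑ l : ZMod 24, (KZ J l.val : ℝ) * (KZ J (l + ((an' i : ZMod 24) - (an' j : ZMod 24))).val : ℝ) =
      (CZ J (mm i j) : ℝ) := by
  rw [CZ_eq hJ (mm_lt i j)]
  push_cast
  rw [← Fin.sum_univ_eq_sum_range (fun l => (KZ J l : ℝ) * (KZ J ((l + mm i j) % 24) : ℝ)) 24]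
  refine Finset.sum_congr rfl fun l _ => ?_
  have h1 : (l + ((an' i : ZMod 24) - (an' j : ZMod 24))).val = (l.val + mm i j) % 24 := by
    have h2 : ((an' i : ZMod 24) - (an' j : ZMod 24)) = ((an' i + (24 - an' j) : ℕ) : ZMod 24) := by
      have h3 : an' j ≤ 24 := (an_lt j).le
      rw [Nat.cast_add, Nat.cast_sub h3]
      have : ((24 : ℕ) : ZMod 24) = 0 := by decide
      rw [this]
      ring
    rw [h2, ZMod.val_add, ZMod.val_natCast]
    rfl
  rw [h1]
  rfl

theorem QA_eq (i j : Option (Pt VV11)) : QA i j = (qI yA i j : ℝ) := by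
  unfold QA ker qI qZ
  push_cast
  refine sum_congr rfl fun J hJ => ?_
  have hJ' : J < 7 := mem_range.mp hJ
  rw [conv_eq hJ', YZ_A hJ' (rw_lt i) (rw_lt j)]
  push_cast
  rfl

theorem Qb_eq (i j : Option (Pt VV11)) :
    Qb i j = (qI yB i j : ℝ) + (MZ (rw' i) (rw' j) : ℝ) * 240000 := by
  have h0 : (qI yB i j : ℝ) + (MZ (rw' i) (rw' j) : ℝ) * 240000 =
      ∑ J ∈ range 7, ((YZ yB J (rw' i) (rw' j) : ℝ) +
        if J = 0 then (MZ (rw' i) (rw' j) : ℝ) else 0) * (CZ J (mm i j) : ℝ) := by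
    unfold qI qZ
    rw [Finset.sum_congr rfl fun J _ => add_mul _ _ _, sum_add_distrib]
    push_cast
    congr 1
    rw [Finset.sum_eq_single 0]
    · rw [if_pos rfl, CZ_zero _ (mm_lt i j)]
      norm_num
    · intro J _ hJ
      rw [if_neg hJ, zero_mul]
    · simp
  rw [h0]
  unfold Qb ker
  refine sum_congr rfl fun J hJ => ?_
  have hJ' : J < 7 := mem_range.mp hJ
  rw [conv_eq hJ', YZ_B hJ' (rw_lt i) (rw_lt j)]
  push_cast
  split_ifs <;> ring

theorem Qm_eq (i j : Option (Pt VV11)) : Qm i j = (MZ (rw' i) (rw' j) : ℝ) * 240000 := by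
  unfold Qm ker
  rw [Finset.sum_eq_single 0]
  · rw [conv_eq (by norm_num), CZ_zero _ (mm_lt i j), MZ_eq (rw_lt i) (rw_lt j)]
    push_cast
    simp
  · intro J _ hJ
    simp [hJ]
  · simp

theorem QB_eq (i j : Option (Pt VV11)) : Qb i j - Qm i j = (qI yB i j : ℝ) := by
  rw [Qb_eq, Qm_eq]
  ring

/-- factors of the forms in the mean values -/
def M1 : Fin 4 → Fin 4 → ℤ := ![![52399792, 0, 0, 0], ![-1372633, 55371, 0, 0], ![-1457, -39285, 1087729, 0], ![-1457, -39285, -1087409, 26394]]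

def M2 : Fin 4 → Fin 4 → ℤ := ![![114648716, 0, 0, 0], ![-1465236, 1561671, 0, 0], ![-1077083, -106489, 12478, 0], ![-1077083, -106489, -6857, 10425]]

/-- index of the form -/
def ixo : Option (Fin 3) → Fin 4
  | none => 0
  | some t => t.succ

/-- the forms in the mean values -/
def PI (M : Fin 4 → Fin 4 → ℤ) (i j : Option (Fin 3)) : ℤ := ∑ k, M (ixo i) k * M (ixo j) k

/-- real valued forms -/
def PR (M : Fin 4 → Fin 4 → ℤ) (i j : Option (Fin 3)) : ℝ := (PI M i j : ℝ)

theorem psd_PR (M : Fin 4 → Fin 4 → ℤ) : PSD (PR M) := by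
  intro v
  have h1 : ∑ i, ∑ j, PR M i j * v i * v j = ∑ k, (∑ i, (M (ixo i) k : ℝ) * v i) ^ 2 := by
    unfold PR PI
    push_cast
    have : ∀ i j : Option (Fin 3), (∑ k, (M (ixo i) k : ℝ) * (M (ixo j) k : ℝ)) * v i * v j =
        ∑ k, ((M (ixo i) k : ℝ) * v i) * ((M (ixo j) k : ℝ) * v j) := by
      intro i j
      rw [sum_mul, sum_mul]
      exact sum_congr rfl fun k _ => by ring
    simp only [this]
    have h2 : ∀ i : Option (Fin 3), ∑ j : Option (Fin 3), ∑ k,
        ((M (ixo i) k : ℝ) * v i) * ((M (ixo j) k : ℝ) * v j) =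
        ∑ k, ((M (ixo i) k : ℝ) * v i) * ∑ j : Option (Fin 3), ((M (ixo j) k : ℝ) * v j) := by
      intro i
      rw [sum_comm]
      exact sum_congr rfl fun k _ => (mul_sum _ _ _).symm
    rw [Finset.sum_congr rfl fun i _ => h2 i, sum_comm]
    refine sum_congr rfl fun k _ => ?_
    rw [← sum_mul, sq]
  rw [h1]
  exact sum_nonneg fun k _ => sq_nonneg _

/-- multipliers -/
def lamI (t : Fin 3) (p : Pt VV11) : ℤ := (lamv t.val p.1.val (clV p.2) : ℤ)

/-- selected kernel -/
def qsel (t : Fin 3) (p r : Pt VV11) : ℤ :=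
  (if t = 0 then qI yA (some p) (some r) else 0) + (if t = 1 then qI yB (some p) (some r) else 0) +
    (if t = 2 then qI yB (some (sgP p)) (some (sgP r)) else 0)

/-- integer valued coefficients of order three -/
def w3 (t : Fin 3) (p r : Pt VV11) : ℤ :=
  qsel t p r + (if t = 0 then 200 * (PI M1 (some p.1) (some r.1) - PI M2 (some p.1) (some r.1)) else 0) +
    (if p = (t, 0) then -lamI t r else 0)

theorem W3_eq (z : Fin 3 × Pt VV11 × Pt VV11) :
    W3 200 QA (fun i j => Qb i j - Qm i j) (fun i j => PR M1 i j - PR M2 i j)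
      (fun t p => (lamI t p : ℝ)) z = (w3 z.1 z.2.1 z.2.2 : ℝ) := by
  unfold W3 w3 qsel PR
  simp only [QB_eq, QA_eq]
  push_cast
  split_ifs <;> ring

theorem sgn3_val : ∀ t : Fin 3, sgn3 t.val = (sg t).val := by
  unfold sg
  decide

theorem rw_some (p : Pt VV11) : rw' (some p) = 11 * p.1.val + clV p.2 := rfl

/-- the entry used by `evq` -/
def eX (tau t1 k1 t2 k2 : ℕ) : ℕ := d448 (rowOf tau (11 * pm tau t1 + k1)) (11 * pm tau t2 + k2)

theorem evq_eq (tau t1 k1 a1 t2 k2 a2 : ℕ) (f : ℕ → ℕ → Bool) :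
    evq tau t1 k1 a1 t2 k2 a2 f = f (dot7 (eX tau t1 k1 t2 k2) (d256 cT ((a1 + (24 - a2)) % 24)))
      (262144 * d56 (eX tau t1 k1 t2 k2) 7 +
        140737488355328 * d32 (d256 cT ((a1 + (24 - a2)) % 24)) 7) := by
  unfold evq
  simp only [force_eq]
  rfl

/-- evaluation of the kernels -/
theorem ev_spec (t : Fin 3) (p r : Pt VV11) : ∃ D S : ℕ,
    (∀ f, evq t.val p.1.val (clV p.2) (anV p.2) r.1.val (clV r.2) (anV r.2) f = f D S) ∧
    (D : ℤ) - S + 258254417031933722624 = qsel t p r := by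
  refine ⟨_, _, fun f => evq_eq _ _ _ _ _ _ _ f, ?_⟩
  have hm : (anV p.2 + (24 - anV r.2)) % 24 = mm (some p) (some r) := rfl
  rw [hm]
  unfold qsel qI
  fin_cases t
  · have := qZ_eq hS7A (rw_lt (some p)) (rw_lt (some r)) (mm_lt (some p) (some r))
    simp only [Fin.isValue, Fin.zero_eta, ↓reduceIte, Fin.reduceEq, add_zero]
    rw [this]
    rfl
  · have := qZ_eq hS7B (rw_lt (some p)) (rw_lt (some r)) (mm_lt (some p) (some r))
    simp only [Fin.isValue, Fin.mk_one, ↓reduceIte, Fin.reduceEq, add_zero, one_ne_zero, zero_add]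
    rw [this]
    rfl
  · have := qZ_eq hS7B (rw_lt (some (sgP p))) (rw_lt (some (sgP r)))
      (mm_lt (some (sgP p)) (some (sgP r)))
    simp only [Fin.isValue, Fin.reduceFinMk, ↓reduceIte, Fin.reduceEq, add_zero, zero_add]
    rw [this]
    have h1 : rw' (some (sgP p)) = 11 * pm 2 p.1.val + clV p.2 := by
      show 11 * (sg p.1).val + clV p.2 = _
      rw [← sgn3_val]
      rfl
    have h2 : rw' (some (sgP r)) = 11 * pm 2 r.1.val + clV r.2 := by
      show 11 * (sg r.1).val + clV r.2 = _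
      rw [← sgn3_val]
      rfl
    rw [h1, h2]
    rfl

end Pool.Agent.MP8b8716T
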