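import Mathlib
import Pool.Agent.Lib.MP_8b8716_co_TRI.Lift

set_option autoImplicit false
set_option maxRecDepth 100000

/-!
# MP_8b8716_co, TRI 11: all coefficients of order three have the right sign
-/

noncomputable section

namespace Pool.Agent.MP8b8716T

open Finset

theorem beq_fin (a b : Fin 3) : Nat.beq a.val b.val = decide (a = b) := by
  fin_cases a <;> fin_cases b <;> rfl

theorem an_val (x1 x2 : ZMod 11) : d8 anT (11 * x1.val + x2.val) = anV (x1, x2) := rfl

theorem cl_val (x1 x2 : ZMod 11) : d8 clT (11 * x1.val + x2.val) = clV (x1, x2) := rfl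

theorem sb_neg (x1 : ZMod 11) : sb 0 x1.val = (-x1).val := by
  have := sb_val 0 x1
  rw [zero_sub] at this
  rw [this]
  rfl

/-- the constant part of a coefficient -/
def eZ (t0 t1 t2 : Fin 3) : ℤ :=
  (if t0 = 0 then 200 * (PI M1 (some t1) (some t2) - PI M2 (some t1) (some t2)) else 0) +
  (if t1 = 0 then 200 * (PI M1 (some t2) (some t0) - PI M2 (some t2) (some t0)) else 0) +
  (if t2 = 0 then 200 * (PI M1 (some t0) (some t1) - PI M2 (some t0) (some t1)) else 0)

theorem eZ_spec : ∀ t0 t1 t2 : Fin 3,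
    (nth eT (9 * t0.val + 3 * t1.val + t2.val) : ℤ) = 1180591620717411303424 + eZ t0 t1 t2 := by
  unfold eZ PI
  decide +kernel

/-- the symmetrized coefficient -/
def ws (t0 t1 t2 : Fin 3) (x y : VV11) : ℤ :=
  w3 t0 (t1, x) (t2, y) + w3 t1 (t2, y - x) (t0, -x) + w3 t2 (t0, -y) (t1, x - y)

theorem chk1_spec {t0 t1 t2 : Fin 3} {x y : VV11} {E : ℕ}
    (hE : (E : ℤ) = 1180591620717411303424 + eZ t0 t1 t2 + 774763251095801167872)
    (h : chk1 t0.val t1.val x.1.val x.2.val t2.val y.1.val y.2.val E = true) :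
    ws t0 t1 t2 x y ≤ 0 := by
  obtain ⟨x1, x2⟩ := x
  obtain ⟨y1, y2⟩ := y
  unfold chk1 at h
  simp only [force_eq, ← sb_val, sb_neg, an_val, cl_val] at h
  obtain ⟨D1, S1, e1, f1⟩ := ev_spec t0 (t1, ((x1, x2) : VV11)) (t2, ((y1, y2) : VV11))
  obtain ⟨D2, S2, e2, f2⟩ := ev_spec t1 (t2, ((y1 - x1, y2 - x2) : VV11)) (t0, ((-x1, -x2) : VV11))
  obtain ⟨D3, S3, e3, f3⟩ := ev_spec t2 (t0, ((-y1, -y2) : VV11)) (t1, ((x1 - y1, x2 - y2) : VV11))
  have c1 : clV (-x1, -x2) = clV (x1, x2) := clV_neg (x1, x2)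
  have c2 : clV (-y1, -y2) = clV (y1, y2) := clV_neg (y1, y2)
  have c3 : clV (x1 - y1, x2 - y2) = clV (y1 - x1, y2 - x2) := by
    have := clV_neg ((y1 - x1, y2 - x2) : VV11)
    rw [← this]
    congr 1
    simp
  simp only [c1, c2, c3] at e1 e2 e3
  rw [e1, e2, e3] at h
  have h' := Nat.le_of_ble_eq_true h
  have z0 : ∀ z : VV11, Nat.beq (clV z) 0 = decide (z = 0) := by
    intro z
    by_cases hz : z = 0
    · have := (clV_eq_zero z).mpr hz
      rw [this]
      simp [hz]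
    · have := mt (clV_eq_zero z).mp hz
      rw [decide_eq_false hz]
      cases hc : clV z with
      | zero => exact absurd hc this
      | succ n => rfl
  simp only [beq_fin, z0] at h'
  unfold ws w3
  have l1 : ∀ (a b : Fin 3) (z v : VV11) (n : ℕ),
      ((cond ((decide (a = b)).and (decide (z = 0))) n 0 : ℕ) : ℤ) =
        -(if ((b, z) : Pt VV11) = (a, 0) then -(n : ℤ) else 0) := by
    intro a b z v n
    by_cases h1 : a = b
    · by_cases h2 : z = 0
      · simp [h1, h2]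
      · simp [h1, h2]
    · simp [h1, Ne.symm h1]
  have h2 : (D1 : ℤ) + D2 + D3 + E ≤ S1 + S2 + S3 +
      ((cond ((decide (t0 = t1)).and (decide (((x1, x2) : VV11) = 0)))
        (lamv t0.val t2.val (clV (y1, y2))) 0 : ℕ) : ℤ) +
      ((cond ((decide (t1 = t2)).and (decide (((y1 - x1, y2 - x2) : VV11) = 0)))
        (lamv t1.val t0.val (clV (x1, x2))) 0 : ℕ) : ℤ) +
      ((cond ((decide (t2 = t0)).and (decide (((y1, y2) : VV11) = 0)))
        (lamv t2.val t1.val (clV (y1 - x1, y2 - x2))) 0 : ℕ) : ℤ) + 1180591620717411303424 := by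
    exact_mod_cast h'
  rw [l1 t0 t1 _ 0, l1 t1 t2 _ 0, l1 t2 t0 _ 0, hE] at h2
  have i1 : (((y1, y2) : VV11) - (x1, x2)) = ((y1 - x1, y2 - x2) : VV11) := rfl
  have i2 : (((x1, x2) : VV11) - (y1, y2)) = ((x1 - y1, x2 - y2) : VV11) := rfl
  have i3 : (-((x1, x2) : VV11)) = ((-x1, -x2) : VV11) := rfl
  have i4 : (-((y1, y2) : VV11)) = ((-y1, -y2) : VV11) := rfl
  rw [i1, i2, i3, i4]
  have k3 : (if ((t0, ((-y1, -y2) : VV11)) : Pt VV11) = (t2, 0) then
      -lamI t2 (t1, ((x1 - y1, x2 - y2) : VV11)) else 0) =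
      (if ((t0, ((y1, y2) : VV11)) : Pt VV11) = (t2, 0) then
      -((lamv t2.val t1.val (clV (y1 - x1, y2 - x2)) : ℕ) : ℤ) else 0) := by
    by_cases hy : ((y1, y2) : VV11) = 0
    · have hy' : ((-y1, -y2) : VV11) = 0 := by rw [← i4, hy, neg_zero]
      rw [hy', hy]
      unfold lamI
      rw [c3]
    · have hy' : ((-y1, -y2) : VV11) ≠ 0 := by
        rw [← i4]
        exact neg_ne_zero.mpr hy
      rw [if_neg fun hh => hy' (congrArg Prod.snd hh), if_neg fun hh => hy (congrArg Prod.snd hh)]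
  have k2 : (if ((t2, ((y1 - x1, y2 - x2) : VV11)) : Pt VV11) = (t1, 0) then
      -lamI t1 (t0, ((-x1, -x2) : VV11)) else 0) =
      (if ((t2, ((y1 - x1, y2 - x2) : VV11)) : Pt VV11) = (t1, 0) then
      -((lamv t1.val t0.val (clV (x1, x2)) : ℕ) : ℤ) else 0) := by
    unfold lamI
    rw [c1]
  rw [k2, k3]
  unfold eZ at h2
  unfold lamI
  simp only [] at *
  linarith

end Pool.Agent.MP8b8716T
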