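import Mathlib
import Pool.Agent.Lib.MP_8b8716_co_TRI.Coef3

set_option autoImplicit false
set_option maxRecDepth 100000

/-!
# MP_8b8716_co, TRI 11: invariance under rotation, all coefficients of order three
-/

noncomputable section

namespace Pool.Agent.MP8b8716T

open Finset

theorem rot_sub (x y : VV11) : rot (x - y) = rot x - rot y := by
  unfold rot
  ext <;> simp <;> ring

theorem rot_neg (x : VV11) : rot (-x) = -rot x := by
  unfold rot
  ext <;> simp <;> ring

theorem rot_zero : rot 0 = 0 := by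
  unfold rot
  simp

theorem rot_eq_zero {x : VV11} (h : rot x = 0) : x = 0 := by
  have h1 := clV_rot x
  rw [h] at h1
  have h2 : clV (0 : VV11) = 0 := (clV_eq_zero 0).mpr rfl
  rw [h2] at h1
  exact (clV_eq_zero x).mp h1.symm

theorem rot_twelve : ∀ x : VV11, rot^[12] x = x := by
  unfold rot
  decide +kernel

theorem qI_rot {y : List ℕ} (h : zchk y = true) (u w : Fin 3) (x z : VV11) :
    qI y (some (u, rot x)) (some (w, rot z)) = qI y (some (u, x)) (some (w, z)) := by
  have hr : ∀ (u : Fin 3) (x : VV11), rw' (some (u, rot x)) = rw' (some (u, x)) := by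
    intro u x
    show 11 * u.val + clV (rot x) = 11 * u.val + clV x
    rw [clV_rot]
  unfold qI
  rw [hr, hr]
  by_cases hx : x = 0
  · have h0 : rw' (some (u, x)) % 11 = 0 := by
      show (11 * u.val + clV x) % 11 = 0
      rw [(clV_eq_zero x).mpr hx]
      omega
    rw [qZ_zero h (rw_lt _) (rw_lt _) (mm_lt _ _) (Or.inl h0),
      qZ_zero h (rw_lt _) (rw_lt _) (mm_lt _ _) (Or.inl h0)]
  · by_cases hz : z = 0
    · have h0 : rw' (some (w, z)) % 11 = 0 := by
        show (11 * w.val + clV z) % 11 = 0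
        rw [(clV_eq_zero z).mpr hz]
        omega
      rw [qZ_zero h (rw_lt _) (rw_lt _) (mm_lt _ _) (Or.inr h0),
        qZ_zero h (rw_lt _) (rw_lt _) (mm_lt _ _) (Or.inr h0)]
    · have hm : mm (some (u, rot x)) (some (w, rot z)) = mm (some (u, x)) (some (w, z)) := by
        show (anV (rot x) + (24 - anV (rot z))) % 24 = (anV x + (24 - anV z)) % 24
        rw [anV_rot x hx, anV_rot z hz]
        have h1 := anV_lt x
        have h2 := anV_lt z
        omega
      rw [hm]

theorem w3_rot (t u w : Fin 3) (x y : VV11) : w3 t (u, rot x) (w, rot y) = w3 t (u, x) (w, y) := by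
  unfold w3 qsel lamI sgP
  rw [qI_rot hZA, qI_rot hZB, qI_rot hZB, clV_rot]
  congr 1
  by_cases hx : x = 0
  · rw [hx, rot_zero]
  · have hx' : rot x ≠ 0 := fun h => hx (rot_eq_zero h)
    rw [if_neg fun hh => hx' (congrArg Prod.snd hh), if_neg fun hh => hx (congrArg Prod.snd hh)]

theorem ws_rot (t0 t1 t2 : Fin 3) (x y : VV11) : ws t0 t1 t2 (rot x) (rot y) = ws t0 t1 t2 x y := by
  unfold ws
  rw [← rot_sub, ← rot_sub, ← rot_neg, ← rot_neg, w3_rot, w3_rot, w3_rot]

theorem ws_iter (t0 t1 t2 : Fin 3) (s : ℕ) (x y : VV11) :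
    ws t0 t1 t2 (rot^[s] x) (rot^[s] y) = ws t0 t1 t2 x y := by
  induction s with
  | zero => rfl
  | succ s ih => rw [Function.iterate_succ_apply', Function.iterate_succ_apply', ws_rot, ih]

theorem ws_rep (t0 t1 t2 : Fin 3) (k : Fin 11) (y : VV11) : ws t0 t1 t2 (repV k.val) y ≤ 0 := by
  have h : chk3 t0.val t1.val t2.val = true := by
    fin_cases t0
    · exact allTo_spec (allTo_spec hQ0 t1.val t1.isLt) t2.val t2.isLt
    · exact allTo_spec (allTo_spec hQ1 t1.val t1.isLt) t2.val t2.isLt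
    · exact allTo_spec (allTo_spec hQ2 t1.val t1.isLt) t2.val t2.isLt
  unfold chk3 at h
  rw [force_eq] at h
  have h1 := allTo_spec h k.val k.isLt
  simp only [force_eq] at h1
  have h2 := allTo_spec (allTo_spec h1 y.1.val (ZMod.val_lt y.1)) y.2.val (ZMod.val_lt y.2)
  rw [← (repV_val k).1, ← (repV_val k).2] at h2
  refine chk1_spec ?_ h2
  push_cast
  rw [eZ_spec t0 t1 t2]

theorem ws_all (t0 t1 t2 : Fin 3) (x y : VV11) : ws t0 t1 t2 x y ≤ 0 := by
  obtain ⟨s, k, rfl⟩ := rep_exists x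
  have h1 : y = rot^[s.val] (rot^[12 - s.val] y) := by
    rw [← Function.iterate_add_apply, show s.val + (12 - s.val) = 12 by omega, rot_twelve]
  rw [h1, ws_iter]
  exact ws_rep _ _ _ _ _

theorem S3_W3_nonpos {F : Fin 3 → VV11 → ℝ} (h0 : ∀ t h, 0 ≤ F t h) :
    S3 F (W3 200 QA (fun i j => Qb i j - Qm i j) (fun i j => PR M1 i j - PR M2 i j)
      (fun t p => (lamI t p : ℝ))) ≤ 0 := by
  refine S3_nonpos h0 _ fun t u w x y => ?_
  rw [W3_eq, W3_eq, W3_eq]
  exact_mod_cast ws_all t u w x y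

end Pool.Agent.MP8b8716T
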