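import Mathlib
import Pool.Agent.Lib.MP_8b8716_co_TRI.Coef3b

set_option autoImplicit false
set_option maxRecDepth 100000

/-!
# MP_8b8716_co, TRI 11: the coefficients of lower order
-/

noncomputable section

namespace Pool.Agent.MP8b8716T

open Finset

/-- multipliers of the differences `f - f ^ 2` -/
def nuI (t : Fin 3) : ℤ := ![165479100472168, 140297006781765, 140297006781765] t

theorem sum_Z11 {M : Type} [AddCommMonoid M] (g : ℕ → M) :
    ∑ a : ZMod 11, g a.val = ∑ a ∈ range 11, g a := Fin.sum_univ_eq_sum_range g 11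

/-- sum over the plane through coordinates -/
theorem sum_VV {M : Type} [AddCommMonoid M] (f : ℕ → ℕ → M) :
    ∑ z : VV11, f z.1.val z.2.val = ∑ a ∈ range 11, ∑ b ∈ range 11, f a b := by
  rw [Fintype.sum_prod_type, ← sum_Z11 fun a => ∑ b ∈ range 11, f a b]
  refine Finset.sum_congr rfl fun a _ => ?_
  exact sum_Z11 fun b => f a.val b

/-- number of elements of a class -/
def mult (k : ℕ) : ℕ := if k = 0 then 1 else 12

theorem card_cl : ∀ k < 11, (univ.filter fun z : VV11 => clV z = k).card = mult k := by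
  unfold clV ix mult
  decide +kernel

theorem sum_cl (g : ℕ → ℤ) : ∑ z : VV11, g (clV z) = ∑ k ∈ range 11, (mult k : ℤ) * g k := by
  rw [← Finset.sum_fiberwise_of_maps_to (s := univ) (t := range 11) (g := clV)
    (fun z _ => mem_range.mpr (clV_lt z))]
  refine sum_congr rfl fun k hk => ?_
  rw [← card_cl k (mem_range.mp hk), sum_congr rfl fun z hz => by rw [(mem_filter.mp hz).2],
    sum_const, nsmul_eq_mul]

/-- averaged third kernel -/
def avZ (t u k : ℕ) : ℤ := 240000 * ((d64 (nth pT (3 * t + u)) k : ℤ) - 17029236090994688)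

theorem av_Qm (t : Fin 3) (p : Pt VV11) :
    av Qm t p = (avZ t.val p.1.val (clV p.2) : ℝ) := by
  obtain ⟨u, x⟩ := p
  have h1 := allTo_spec (allTo_spec hP t.val t.isLt) u.val u.isLt
  rw [force_eq] at h1
  have h2 := allTo_spec (allTo_spec h1 x.1.val (ZMod.val_lt _)) x.2.val (ZMod.val_lt _)
  have h3 := Nat.eq_of_beq_eq_true h2
  simp only [sumN_eq] at h3
  have h4 := sum_VV (fun a b => d56 (nth yM (11 * t.val + d8 clT (11 * a + b)))
    (11 * u.val + d8 clT (11 * ad x.1.val a + ad x.2.val b)))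
  rw [← h4] at h3
  simp only [← ad_val] at h3
  have h5 : (d64 (nth pT (3 * t.val + u.val)) (clV x) : ℤ) - 121 * 140737488355328 =
      ∑ z : VV11, MZ (rw' (some (t, z))) (rw' (some (u, x + z))) := by
    unfold MZ
    rw [sum_sub_distrib, sum_const, card_univ, show Fintype.card VV11 = 121 from rfl]
    have h6 : (d64 (nth pT (3 * t.val + u.val)) (clV x) : ℤ) =
        ∑ z : VV11, (d56 (nth yM (rw' (some (t, z)))) (rw' (some (u, x + z))) : ℤ) := by
      exact_mod_cast h3
    rw [h6]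
    norm_num
  unfold av avZ
  simp only [Qm_eq]
  rw [← sum_mul]
  have h7 : ∑ z : VV11, (MZ (rw' (some (t, z))) (rw' (some (u, x + z))) : ℝ) =
      (((d64 (nth pT (3 * t.val + u.val)) (clV x) : ℤ) - 121 * 140737488355328 : ℤ) : ℝ) := by
    rw [h5]
    push_cast
    rfl
  rw [h7]
  push_cast
  ring

/-- linear part of the third kernel, summed -/
def a1Z (t : ℕ) : ℤ :=
  240000 * ∑ k ∈ range 11, (mult k : ℤ) * (MZ 33 (11 * t + k) + MZ (11 * t + k) 33)

theorem av1_Qm (t : Fin 3) : av1 Qm t = (a1Z t.val : ℝ) := by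
  unfold av1 a1Z
  rw [← sum_cl fun k => MZ 33 (11 * t.val + k) + MZ (11 * t.val + k) 33]
  simp only [Qm_eq]
  push_cast
  rw [mul_sum]
  refine sum_congr rfl fun z _ => ?_
  show (MZ 33 (11 * t.val + clV z) : ℝ) * 240000 + (MZ (11 * t.val + clV z) 33 : ℝ) * 240000 = _
  ring

/-- coefficients of order two, as a function of the class -/
def w2k (t u : Fin 3) (k : ℕ) : ℤ :=
  (if t = 0 then 240000 * (YZ yA 0 33 (11 * u.val + k) + YZ yA 0 (11 * u.val + k) 33) +
    200 * (PI M1 none (some u) + PI M1 (some u) none -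
      (PI M2 none (some u) + PI M2 (some u) none)) else 0) +
  (if t = 1 then 240000 * (YZ yB 0 33 (11 * u.val + k) + YZ yB 0 (11 * u.val + k) 33) else 0) +
  (if t = 2 then 240000 * (YZ yB 0 33 (11 * (sg u).val + k) +
    YZ yB 0 (11 * (sg u).val + k) 33) else 0) +
  avZ t.val u.val k + avZ (sg t).val (sg u).val k +
  (7623 * PI M2 (some t) (some u) - 1331 * PI M1 (some t) (some u)) +
  (lamv t.val u.val k : ℤ) + (if u = t ∧ k = 0 then -nuI t else 0)

theorem W2_eq (t : Fin 3) (p : Pt VV11) :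
    W2 200 1331 7623 QA (fun i j => Qb i j - Qm i j) Qm (PR M1) (PR M2)
      (fun t p => (lamI t p : ℝ)) (fun t => (nuI t : ℝ)) t p = (w2k t p.1 (clV p.2) : ℝ) := by
  obtain ⟨u, x⟩ := p
  have hs : ∀ (y : List ℕ), zchk y = true → ∀ (v : Fin 3),
      ((qI y none (some (v, x)) : ℤ) : ℝ) + (qI y (some (v, x)) none : ℤ) =
        240000 * ((YZ y 0 33 (11 * v.val + clV x) : ℝ) + (YZ y 0 (11 * v.val + clV x) 33 : ℝ)) := by
    intro y hy v
    unfold qI
    rw [qZ_zero hy (rw_lt _) (rw_lt _) (mm_lt _ _) (Or.inl rfl),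
      qZ_zero hy (rw_lt _) (rw_lt _) (mm_lt _ _) (Or.inr rfl)]
    push_cast
    show (YZ y 0 33 (11 * v.val + clV x) : ℝ) * 240000 +
      (YZ y 0 (11 * v.val + clV x) 33 : ℝ) * 240000 = _
    ring
  have e1 := hs yA hZA u
  have e2 := hs yB hZB u
  have e3 := hs yB hZB (sg u)
  have e4 : (((u, x) : Pt VV11) = (t, 0)) ↔ (u = t ∧ clV x = 0) := by
    rw [Prod.mk.injEq, clV_eq_zero]
  unfold W2 w2k
  simp only [QB_eq, QA_eq, av_Qm, sgP, e1, e2, e3, e4]
  unfold PR lamI
  push_cast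
  split_ifs <;> ring

/-- coefficients of order one -/
def w1 (t : Fin 3) : ℤ :=
  (if t = 0 then 240000 * YZ yA 0 33 33 + 200 * (PI M1 none none - PI M2 none none) else 0) +
  (if t = 1 then 240000 * YZ yB 0 33 33 else 0) + (if t = 2 then 240000 * YZ yB 0 33 33 else 0) +
  a1Z t.val + a1Z (sg t).val +
  (7623 * (PI M2 none (some t) + PI M2 (some t) none) -
    1331 * (PI M1 none (some t) + PI M1 (some t) none)) + nuI t

theorem W1_eq (t : Fin 3) :
    W1 200 1331 7623 QA (fun i j => Qb i j - Qm i j) Qm (PR M1) (PR M2)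
      (fun t => (nuI t : ℝ)) t = (w1 t : ℝ) := by
  have hs : ∀ (y : List ℕ), zchk y = true →
      ((qI y none none : ℤ) : ℝ) = 240000 * (YZ y 0 33 33 : ℝ) := by
    intro y hy
    unfold qI
    rw [qZ_zero hy (rw_lt _) (rw_lt _) (mm_lt _ _) (Or.inl rfl)]
    push_cast
    show (YZ y 0 33 33 : ℝ) * 240000 = _
    ring
  have e1 := hs yA hZA
  have e2 := hs yB hZB
  unfold W1 w1
  simp only [QB_eq, QA_eq, av1_Qm, e1, e2]
  unfold PR
  push_cast
  split_ifs <;> ring

/-- target of order two -/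
def tgk (t u : Fin 3) (k : ℕ) : ℤ :=
  (if t < u ∧ k = 1 then 791648371998720000 else 0) + (if u = t ∧ k = 0 then 1583296743997440000 else 0)

theorem chkW2 : ∀ t u : Fin 3, ∀ k : Fin 11,
    w2k t u k.val - tgk t u k.val + (w2k u t k.val - tgk u t k.val) ≤ 0 := by
  unfold w2k tgk PI avZ YZ sg
  decide +kernel

theorem chkW1 : 50 * w1 0 + 127 * 1583296743997440000 ≤ 0 ∧ w1 1 + 2 * 1583296743997440000 ≤ 0 ∧ w1 2 + 2 * 1583296743997440000 ≤ 0 := by
  unfold w1 PI a1Z YZ MZ mult sg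
  decide +kernel

theorem chkW0 : 5000 * (2 * 121 * (MZ 33 33 * 240000) + 7623 * PI M2 none none -
    1331 * PI M1 none none) ≤ 4423 * 121 * 1583296743997440000 := by
  unfold PI MZ
  decide +kernel

theorem chkpos : (∀ t, 0 ≤ nuI t) := by
  unfold nuI
  decide

end Pool.Agent.MP8b8716T
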