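import Mathlib
import Pool.Agent.Lib.MP_8b8716_co_TRI.Coef2

set_option autoImplicit false
set_option maxRecDepth 100000

/-!
# MP_8b8716_co, TRI 11: the inequality on the plane over the field with eleven elements
-/

noncomputable section

namespace Pool.Agent.MP8b8716T

open Finset

/-- the elements of norm one -/
def U11 : Finset VV11 := univ.filter fun u : VV11 => u.1 ^ 2 + u.2 ^ 2 = 1

theorem sum_one (c : ℝ) (g : VV11 → ℝ) :
    ∑ x, (if clV x = 1 then c else 0) * g x = c * ∑ x ∈ U11, g x := by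
  unfold U11
  rw [mul_sum, sum_filter]
  refine sum_congr rfl fun x _ => ?_
  simp only [clV_one]
  split_ifs <;> simp

theorem sum_zero' (c : ℝ) (g : VV11 → ℝ) :
    ∑ x, (if clV x = 0 then c else 0) * g x = c * g 0 := by
  rw [Finset.sum_eq_single 0]
  · rw [if_pos ((clV_eq_zero 0).mpr rfl)]
  · intro b _ hb
    rw [if_neg fun h => hb ((clV_eq_zero b).mp h), zero_mul]
  · simp

theorem S2_tg (F : Fin 3 → VV11 → ℝ) : S2 F (fun t p => (tgk t p.1 (clV p.2) : ℝ)) =
    791648371998720000 * ∑ x ∈ U11, (A2 F 0 (1, x) + A2 F 0 (2, x) + A2 F 1 (2, x)) +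
      1583296743997440000 * (A2 F 0 (0, 0) + A2 F 1 (1, 0) + A2 F 2 (2, 0)) := by
  have h : ∀ (t u : Fin 3), ∑ x : VV11, (tgk t u (clV x) : ℝ) * A2 F t (u, x) =
      (if t < u then 791648371998720000 * ∑ x ∈ U11, A2 F t (u, x) else 0) +
      (if u = t then 1583296743997440000 * A2 F t (u, 0) else 0) := by
    intro t u
    rw [← sum_one, ← sum_zero' 1583296743997440000 fun x => A2 F t (u, x)]
    unfold tgk
    push_cast
    simp only [add_mul, sum_add_distrib]
    congr 1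
    · by_cases h1 : t < u
      · simp [h1]
      · simp [h1]
    · by_cases h1 : u = t
      · simp [h1]
      · simp [h1]
  unfold S2
  simp only [Fintype.sum_prod_type, h, Fin.sum_univ_three]
  simp [sum_add_distrib, Fin.lt_def]
  ring

theorem tri_F {F : Fin 3 → VV11 → ℝ} (h0 : ∀ t h, 0 ≤ F t h) (h1 : ∀ t h, F t h ≤ 1)
    (hlo : 1331 ≤ 200 * A1 F 0) (hhi : 200 * A1 F 0 ≤ 7623) :
    A1 F 1 + A1 F 2 ≤ 121 * (4423 / 5000) - 77 / 50 * A1 F 0 +
      1 / 2 * ∑ x ∈ U11, (A2 F 0 (1, x) + A2 F 0 (2, x) + A2 F 1 (2, x)) -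
      ((A1 F 0 - A2 F 0 (0, 0)) + (A1 F 1 - A2 F 1 (1, 0)) + (A1 F 2 - A2 F 2 (2, 0))) := by
  have hA : PSD QA := psd_ker _ _ _ _
  have hb : PSD Qb := psd_ker _ _ _ _
  have hm : PSD Qm := psd_ker _ _ _ _
  have hc := core (F := F) h0 h1 hlo hhi hA hb hm (psd_PR M1) (psd_PR M2)
    (lam := fun t p => (lamI t p : ℝ)) (fun t p => by unfold lamI; positivity)
    (nu := fun t => (nuI t : ℝ)) (fun t => by exact_mod_cast chkpos t) (S3_W3_nonpos h0)
  have e2 : S2 F (W2 200 1331 7623 QA (fun i j => Qb i j - Qm i j) Qm (PR M1) (PR M2)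
      (fun t p => (lamI t p : ℝ)) (fun t => (nuI t : ℝ))) ≤
      S2 F (fun t p => (tgk t p.1 (clV p.2) : ℝ)) := by
    have h3 : S2 F (fun t p => (w2k t p.1 (clV p.2) : ℝ) - (tgk t p.1 (clV p.2) : ℝ)) ≤ 0 := by
      refine S2_nonpos h0 _ fun t u x => ?_
      have := chkW2 t u ⟨clV x, clV_lt x⟩
      show (w2k t u (clV x) : ℝ) - (tgk t u (clV x) : ℝ) +
        ((w2k u t (clV (-x)) : ℝ) - (tgk u t (clV (-x)) : ℝ)) ≤ 0
      rw [clV_neg]
      exact_mod_cast this
    have h4 := S2_add F (fun t p => (w2k t p.1 (clV p.2) : ℝ) - (tgk t p.1 (clV p.2) : ℝ))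
      (fun t p => (tgk t p.1 (clV p.2) : ℝ))
    have h5 : W2 200 1331 7623 QA (fun i j => Qb i j - Qm i j) Qm (PR M1) (PR M2)
      (fun t p => (lamI t p : ℝ)) (fun t => (nuI t : ℝ)) =
      fun t p => (w2k t p.1 (clV p.2) : ℝ) - (tgk t p.1 (clV p.2) : ℝ) +
        (tgk t p.1 (clV p.2) : ℝ) := by
      funext t p
      rw [W2_eq]
      ring
    rw [h5, ← h4]
    linarith
  have e1 : S1 F (W1 200 1331 7623 QA (fun i j => Qb i j - Qm i j) Qm (PR M1) (PR M2)
      (fun t => (nuI t : ℝ))) ≤ 1583296743997440000 * (-(127 / 50) * A1 F 0 - 2 * A1 F 1 -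
        2 * A1 F 2) := by
    unfold S1
    rw [Fin.sum_univ_three, W1_eq, W1_eq, W1_eq]
    obtain ⟨g0, g1, g2⟩ := chkW1
    have g0' : 50 * (w1 0 : ℝ) + 127 * 1583296743997440000 ≤ 0 := by exact_mod_cast g0
    have g1' : (w1 1 : ℝ) + 2 * 1583296743997440000 ≤ 0 := by exact_mod_cast g1
    have g2' : (w1 2 : ℝ) + 2 * 1583296743997440000 ≤ 0 := by exact_mod_cast g2
    have k0 := mul_nonneg (sub_nonneg.mpr g0') (A1_nonneg h0 0)
    have k1 := mul_nonneg (sub_nonneg.mpr g1') (A1_nonneg h0 1)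
    have k2 := mul_nonneg (sub_nonneg.mpr g2') (A1_nonneg h0 2)
    linarith
  have e0 : 2 * (Fintype.card VV11 : ℝ) * Qm none none + 7623 * PR M2 none none -
      1331 * PR M1 none none ≤ 1583296743997440000 * (121 * (4423 / 5000)) := by
    rw [Qm_eq]
    unfold PR
    rw [show Fintype.card VV11 = 121 from rfl]
    have g : (5000 : ℝ) * (2 * 121 * (MZ 33 33 * 240000) + 7623 * PI M2 none none -
      1331 * PI M1 none none) ≤ 4423 * 121 * 1583296743997440000 := by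
      exact_mod_cast chkW0
    show 2 * ((121 : ℕ) : ℝ) * ((MZ 33 33 : ℝ) * 240000) + _ - _ ≤ _
    push_cast
    linarith
  rw [S2_tg] at e2
  linarith

end Pool.Agent.MP8b8716T
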